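import Pool.Agent.SC87.Meas

/-!
# Finite coverings by unit balls: counting
-/

set_option autoImplicit false

open MeasureTheory Metric Set Module

namespace SC87

variable {d : ℕ}


/-- the points of `C` which are covered exactly once, by the ball around `b i` -/
def exc {k : ℕ} (b : Fin k → (EuclideanSpace ℝ (Fin d))) (C : Set (EuclideanSpace ℝ (Fin d))) (i : Fin k) : Set (EuclideanSpace ℝ (Fin d)) :=
  {x | x ∈ C ∧ ‖x - b i‖ ≤ 1 ∧ ∀ l, l ≠ i → 1 < ‖x - b l‖}

lemma exc_meas {k : ℕ} (b : Fin k → (EuclideanSpace ℝ (Fin d))) {C : Set (EuclideanSpace ℝ (Fin d))} (hC : MeasurableSet C) (i : Fin k) :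
    MeasurableSet (exc b C i) := by
  have h : exc b C i = C ∩ ({x | ‖x - b i‖ ≤ 1} ∩ ⋂ l, {x | l ≠ i → 1 < ‖x - b l‖}) := by
    ext x
    simp only [exc, mem_ofPred_eq, mem_inter_iff, mem_iInter]
  rw [h]
  refine hC.inter (MeasurableSet.inter ?_ (MeasurableSet.iInter fun l => ?_))
  · exact (isClosed_le (by fun_prop) continuous_const).measurableSet
  · by_cases hl : l = i
    · have : {x : (EuclideanSpace ℝ (Fin d)) | l ≠ i → 1 < ‖x - b l‖} = univ := by
        ext x; simp [hl]
      rw [this]; exact MeasurableSet.univ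
    · have : {x : (EuclideanSpace ℝ (Fin d)) | l ≠ i → 1 < ‖x - b l‖} = {x : (EuclideanSpace ℝ (Fin d)) | 1 < ‖x - b l‖} := by
        ext x; simp [hl]
      rw [this]
      exact (isOpen_lt continuous_const (by fun_prop)).measurableSet

lemma exc_sub_ball {k : ℕ} (b : Fin k → (EuclideanSpace ℝ (Fin d))) (C : Set (EuclideanSpace ℝ (Fin d))) (i : Fin k) :
    exc b C i ⊆ closedBall (b i) 1 := by
  intro x hx
  rw [mem_closedBall, dist_eq_norm]
  exact hx.2.1

lemma exc_disj {k : ℕ} (b : Fin k → (EuclideanSpace ℝ (Fin d))) (C : Set (EuclideanSpace ℝ (Fin d))) {i j : Fin k} (h : i ≠ j) :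
    Disjoint (exc b C i) (exc b C j) := by
  rw [Set.disjoint_left]
  intro x hx hx'
  exact absurd hx'.2.1 (not_le.mpr (hx.2.2 j (Ne.symm h)))

theorem exc_sum {k : ℕ} (b : Fin k → (EuclideanSpace ℝ (Fin d))) {C : Set (EuclideanSpace ℝ (Fin d))} (hC : MeasurableSet C)
    (hcov : ∀ x ∈ C, ∃ i, ‖x - b i‖ ≤ 1) :
    2 * volume C ≤ ∑ i, volume (closedBall (b i) 1) + ∑ i, volume (exc b C i) := by
  classical
  have e1 : (2 : ENNReal) * volume C = ∫⁻ x, C.indicator (fun _ => 2) x := by
    rw [lintegral_indicator_const hC]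
  have e2 : ∑ i, volume (closedBall (b i) 1) + ∑ i, volume (exc b C i)
      = ∫⁻ x, (∑ i, (closedBall (b i) 1).indicator (fun _ => (1 : ENNReal)) x
        + ∑ i, (exc b C i).indicator (fun _ => (1 : ENNReal)) x) := by
    rw [lintegral_add_left, lintegral_finsetSum, lintegral_finsetSum]
    · congr 1
      · refine Finset.sum_congr rfl fun i _ => ?_
        rw [lintegral_indicator_const measurableSet_closedBall, one_mul]
      · refine Finset.sum_congr rfl fun i _ => ?_
        rw [lintegral_indicator_const (exc_meas b hC i), one_mul]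
    · intro i _
      exact measurable_const.indicator (exc_meas b hC i)
    · intro i _
      exact measurable_const.indicator measurableSet_closedBall
    · refine Finset.measurable_sum _ fun i _ => ?_
      exact measurable_const.indicator measurableSet_closedBall
  rw [e1, e2]
  refine lintegral_mono fun x => ?_
  by_cases hx : x ∈ C
  · rw [indicator_of_mem hx]
    obtain ⟨i, hi⟩ := hcov x hx
    have hi' : x ∈ closedBall (b i) 1 := by rw [mem_closedBall, dist_eq_norm]; exact hi
    by_cases hex : ∀ l, l ≠ i → 1 < ‖x - b l‖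
    · have h1 : (1 : ENNReal) ≤ ∑ l, (closedBall (b l) 1).indicator (fun _ => (1 : ENNReal)) x := by
        have h2 := Finset.single_le_sum
          (f := fun l => (closedBall (b l) 1).indicator (fun _ => (1 : ENNReal)) x)
          (fun _ _ => zero_le) (Finset.mem_univ i)
        simp only [indicator_of_mem hi'] at h2
        exact h2
      have h3 : (1 : ENNReal) ≤ ∑ l, (exc b C l).indicator (fun _ => (1 : ENNReal)) x := by
        have hm : x ∈ exc b C i := ⟨hx, hi, hex⟩
        have h2 := Finset.single_le_sum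
          (f := fun l => (exc b C l).indicator (fun _ => (1 : ENNReal)) x)
          (fun _ _ => zero_le) (Finset.mem_univ i)
        simp only [indicator_of_mem hm] at h2
        exact h2
      calc (2 : ENNReal) = 1 + 1 := by norm_num
        _ ≤ _ := add_le_add h1 h3
    · push Not at hex
      obtain ⟨l, hl, hl1⟩ := hex
      have hl' : x ∈ closedBall (b l) 1 := by rw [mem_closedBall, dist_eq_norm]; exact hl1
      have h1 : (2 : ENNReal) ≤ ∑ l, (closedBall (b l) 1).indicator (fun _ => (1 : ENNReal)) x := by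
        have h2 := Finset.sum_le_sum_of_subset
          (f := fun l => (closedBall (b l) 1).indicator (fun _ => (1 : ENNReal)) x)
          (Finset.subset_univ ({l, i} : Finset (Fin k)))
        rw [Finset.sum_pair hl] at h2
        simp only [indicator_of_mem hi', indicator_of_mem hl'] at h2
        calc (2 : ENNReal) = 1 + 1 := by norm_num
          _ ≤ _ := h2
      exact h1.trans (le_add_of_nonneg_right (zero_le))
  · rw [indicator_of_notMem hx]
    exact zero_le

lemma card_good {k : ℕ} (f : Fin k → ℝ) {K ε : ℝ} (hK : 0 < K) (hε : 0 < ε)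
    (hf : ∀ i, f i ≤ K) (hsum : (1 - 2 * ε) * k * K < ∑ i, f i) :
    (k : ℝ) < 2 * ((Finset.univ.filter fun i => (1 - 4 * ε) * K ≤ f i).card : ℝ) := by
  classical
  set S := Finset.univ.filter fun i => (1 - 4 * ε) * K ≤ f i with hS
  have h1 : ∑ i, f i ≤ ∑ i, ((1 - 4 * ε) * K + if i ∈ S then 4 * ε * K else 0) := by
    refine Finset.sum_le_sum fun i _ => ?_
    by_cases hi : i ∈ S
    · rw [if_pos hi]
      have := hf i
      linarith
    · rw [if_neg hi]
      have : ¬ ((1 - 4 * ε) * K ≤ f i) := by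
        intro h
        exact hi (by rw [hS]; simp [h])
      push Not at this
      linarith
  have h2 : ∑ i : Fin k, ((1 - 4 * ε) * K + if i ∈ S then 4 * ε * K else 0)
      = k * ((1 - 4 * ε) * K) + S.card * (4 * ε * K) := by
    rw [Finset.sum_add_distrib, Finset.sum_const, Finset.card_univ, Fintype.card_fin,
      nsmul_eq_mul, Finset.sum_ite_mem, Finset.univ_inter, Finset.sum_const, nsmul_eq_mul]
  rw [h2] at h1
  have h3 : 0 < ε * K := mul_pos hε hK
  have h4 : (1 - 2 * ε) * k * K < k * ((1 - 4 * ε) * K) + S.card * (4 * ε * K) :=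
    lt_of_lt_of_le hsum h1
  have h5 : (ε * K) * (2 * k) < (ε * K) * (4 * S.card) := by nlinarith
  have h6 := lt_of_mul_lt_mul_left h5 h3.le
  linarith

theorem low_degree {k : ℕ} (b : Fin k → (EuclideanSpace ℝ (Fin d))) (E : Fin k → Set (EuclideanSpace ℝ (Fin d))) (hEm : ∀ i, MeasurableSet (E i))
    (hEb : ∀ i, E i ⊆ closedBall (b i) 1) (hEd : ∀ i j, i ≠ j → Disjoint (E i) (E j))
    (S : Finset (Fin k)) (hS : (k : ℝ) < 2 * S.card) {q R : ℝ} (hq : 0 < q) (hR : 0 ≤ R)
    (hE : ∀ i ∈ S, q * kap d ≤ (volume : Measure (EuclideanSpace ℝ (Fin d))).real (E i)) :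
    ∃ i ∈ S, q * ((Finset.univ.filter fun l => ‖b l - b i‖ ≤ R).card : ℝ) ≤ 2 * (R + 1) ^ d := by
  classical
  by_contra hcon
  push Not at hcon
  have hk : (0 : ℝ) ≤ k := Nat.cast_nonneg k
  have hSc : (0 : ℝ) < S.card := by linarith
  have hSne : S.Nonempty := by
    rw [← Finset.card_pos]
    exact_mod_cast hSc
  have h1 : (S.card : ℝ) * (2 * (R + 1) ^ d)
      < ∑ i ∈ S, q * ((Finset.univ.filter fun l => ‖b l - b i‖ ≤ R).card : ℝ) := by
    have := Finset.sum_lt_sum_of_nonempty hSne hcon
    rw [Finset.sum_const, nsmul_eq_mul] at this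
    exact this
  have h2 : ∑ i ∈ S, q * ((Finset.univ.filter fun l => ‖b l - b i‖ ≤ R).card : ℝ)
      = ∑ l : Fin k, q * ((S.filter fun i => ‖b l - b i‖ ≤ R).card : ℝ) := by
    rw [← Finset.mul_sum, ← Finset.mul_sum]
    congr 1
    have : ∀ i ∈ S, ((Finset.univ.filter fun l => ‖b l - b i‖ ≤ R).card : ℝ)
        = ∑ l : Fin k, if ‖b l - b i‖ ≤ R then (1 : ℝ) else 0 := by
      intro i _
      rw [Finset.card_filter]
      push_cast
      rfl
    rw [Finset.sum_congr rfl this, Finset.sum_comm]
    refine Finset.sum_congr rfl fun l _ => ?_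
    rw [Finset.card_filter]
    push_cast
    rfl
  have h3 : ∀ l : Fin k, q * ((S.filter fun i => ‖b l - b i‖ ≤ R).card : ℝ) ≤ (R + 1) ^ d := by
    intro l
    set F := S.filter fun i => ‖b l - b i‖ ≤ R with hF
    have h4 : (volume : Measure (EuclideanSpace ℝ (Fin d))).real (⋃ i ∈ F, E i) = ∑ i ∈ F, (volume : Measure (EuclideanSpace ℝ (Fin d))).real (E i) := by
      refine measureReal_biUnion_finset ?_ ?_ ?_
      · intro i _ j _ hne
        exact hEd i j hne
      · intro i _
        exact hEm i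
      · intro i _
        exact ne_top_of_le_ne_top (ball_ne_top (b i) 1) (measure_mono (hEb i))
    have h5 : (⋃ i ∈ F, E i) ⊆ closedBall (b l) (R + 1) := by
      intro x hx
      simp only [mem_iUnion] at hx
      obtain ⟨i, hi, hx⟩ := hx
      have h6 := hEb i hx
      rw [mem_closedBall, dist_eq_norm] at h6 ⊢
      have h7 : ‖b l - b i‖ ≤ R := (Finset.mem_filter.mp hi).2
      have h8 : x - b l = (x - b i) - (b l - b i) := by abel
      rw [h8]
      refine (norm_sub_le _ _).trans ?_
      linarith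
    have h6 : (volume : Measure (EuclideanSpace ℝ (Fin d))).real (⋃ i ∈ F, E i) ≤ (R + 1) ^ d * kap d := by
      rw [← vol_ball (b l) (by linarith : (0:ℝ) ≤ R + 1)]
      exact measureReal_mono h5 (ball_ne_top _ _)
    rw [h4] at h6
    have h7 : (F.card : ℝ) * (q * kap d) ≤ ∑ i ∈ F, (volume : Measure (EuclideanSpace ℝ (Fin d))).real (E i) := by
      rw [← nsmul_eq_mul, ← Finset.sum_const]
      refine Finset.sum_le_sum fun i hi => ?_
      exact hE i (Finset.mem_filter.mp hi).1
    have h8 : (q * (F.card : ℝ)) * kap d ≤ (R + 1) ^ d * kap d := by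
      have : (q * (F.card : ℝ)) * kap d = (F.card : ℝ) * (q * kap d) := by ring
      rw [this]
      exact h7.trans h6
    exact le_of_mul_le_mul_right h8 kap_pos
  have h4 : ∑ l : Fin k, q * ((S.filter fun i => ‖b l - b i‖ ≤ R).card : ℝ)
      ≤ k * (R + 1) ^ d := by
    calc ∑ l : Fin k, q * ((S.filter fun i => ‖b l - b i‖ ≤ R).card : ℝ)
        ≤ ∑ _l : Fin k, (R + 1) ^ d := Finset.sum_le_sum fun l _ => h3 l
      _ = k * (R + 1) ^ d := by
          rw [Finset.sum_const, Finset.card_univ, Fintype.card_fin, nsmul_eq_mul]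
  rw [h2] at h1
  have h5 : 0 < (R + 1) ^ d := by positivity
  have h6 : (k : ℝ) * (R + 1) ^ d < (2 * S.card) * (R + 1) ^ d := mul_lt_mul_of_pos_right hS h5
  linarith

end SC87
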