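import Mathlib

/-!
# Finite coverings by unit balls: geometry and measure lemmas
-/

set_option autoImplicit false

open MeasureTheory Metric Set Module

namespace SC87

variable {d : ℕ}


/-- volume of the unit ball -/
noncomputable def kap (d : ℕ) : ℝ := (volume : Measure (EuclideanSpace ℝ (Fin d))).real (closedBall 0 1)

lemma kap_pos : 0 < kap d := by
  unfold kap
  rw [measureReal_def, ENNReal.toReal_pos_iff]
  refine ⟨measure_closedBall_pos _ _ one_pos, measure_closedBall_lt_top⟩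

lemma vol_ball (x : (EuclideanSpace ℝ (Fin d))) {r : ℝ} (hr : 0 ≤ r) :
    (volume : Measure (EuclideanSpace ℝ (Fin d))).real (closedBall x r) = r ^ d * kap d := by
  have h := Measure.addHaar_real_closedBall' (volume : Measure (EuclideanSpace ℝ (Fin d))) x hr
  rw [finrank_euclideanSpace_fin] at h
  exact h

lemma ball_ne_top (x : (EuclideanSpace ℝ (Fin d))) (r : ℝ) : (volume : Measure (EuclideanSpace ℝ (Fin d))) (closedBall x r) ≠ ⊤ :=
  measure_closedBall_lt_top.ne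

/-- the convex combination identity -/
lemma comb_sq (a b z : (EuclideanSpace ℝ (Fin d))) (x : ℝ) :
    ‖(a + x • (z - a)) - b‖ ^ 2 = x * ‖z - b‖ ^ 2 + (1 - x) * ‖b - a‖ ^ 2
      - x * (1 - x) * ‖z - a‖ ^ 2 := by
  have h1 : (a + x • (z - a)) - b = x • (z - a) - (b - a) := by abel
  have h2 : z - b = (z - a) - (b - a) := by abel
  rw [h1, h2]
  generalize z - a = u
  generalize b - a = w
  have e1 := norm_sub_sq_real (x • u) w
  have e2 := norm_sub_sq_real u w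
  rw [norm_smul, mul_pow, Real.norm_eq_abs, sq_abs, real_inner_smul_left] at e1
  rw [e1, e2]
  ring

/-- lens: a point of two balls is close to the midpoint of the centres -/
lemma lens (a b z : (EuclideanSpace ℝ (Fin d))) {A B : ℝ} (ha : ‖z - a‖ ^ 2 ≤ A) (hb : ‖z - b‖ ^ 2 ≤ B) :
    ‖z - (a + (1 / 2 : ℝ) • (b - a))‖ ^ 2 ≤ (A + B) / 2 - ‖b - a‖ ^ 2 / 4 := by
  have h := comb_sq a z b (1 / 2)
  have h1 : ‖z - (a + (1 / 2 : ℝ) • (b - a))‖ ^ 2 = ‖a + (1 / 2 : ℝ) • (b - a) - z‖ ^ 2 := by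
    rw [norm_sub_rev]
  have h2 : ‖b - z‖ = ‖z - b‖ := norm_sub_rev _ _
  rw [h1, h, h2]
  nlinarith

/-- cap: a point of the unit ball beyond a hyperplane is in a smaller ball -/
lemma cap (c v y : (EuclideanSpace ℝ (Fin d))) {a t : ℝ} (hy : ‖y - c‖ ≤ 1) (ha : 0 ≤ a) (ht : 0 < t) (hv : ‖v‖ ≤ t)
    (h : a * t ≤ inner ℝ (y - c) v) (hv0 : v ≠ 0) :
    ‖y - (c + (a / ‖v‖) • v)‖ ^ 2 ≤ 1 - a ^ 2 := by
  have hvpos : 0 < ‖v‖ := norm_pos_iff.mpr hv0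
  have h1 : y - (c + (a / ‖v‖) • v) = (y - c) - (a / ‖v‖) • v := by abel
  rw [h1, norm_sub_sq_real, norm_smul, real_inner_smul_right, Real.norm_eq_abs, abs_div, abs_norm,
    abs_of_nonneg ha, div_mul_cancel₀ _ hvpos.ne']
  have h2 : a * ‖v‖ ≤ inner ℝ (y - c) v := (mul_le_mul_of_nonneg_left hv ha).trans h
  have h3 : a * a ≤ a / ‖v‖ * inner ℝ (y - c) v := by
    rw [div_mul_eq_mul_div, le_div_iff₀ hvpos]
    calc a * a * ‖v‖ = a * (a * ‖v‖) := by ring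
      _ ≤ a * inner ℝ (y - c) v := mul_le_mul_of_nonneg_left h2 ha
  have h4 : ‖y - c‖ ^ 2 ≤ 1 := by
    have := norm_nonneg (y - c)
    nlinarith
  nlinarith

/-- the numerical heart of the two contractions -/
lemma num_fin {η γ X y κ θ : ℝ} (hη0 : 0 < η) (hη : η ≤ 2 / 5) (hXpos : 0 < X) (hγ0 : 0 < γ)
    (hXγ : X * η = γ) (hXle : X ≤ η / 4) (hy : y = X - γ)
    (hκ : κ = X * ((2 - η) ^ 2 - 2 + X)) (hθ : θ = κ / 2) (hθ0 : 0 ≤ θ) (hy0 : 0 < y) :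
    (1 - θ) * (1 - y) ^ 2 + θ * (2 * (2 - η) - 1 + θ) ≤ 1 := by
  have e1 : θ = X * (1 - 2 * η + η ^ 2 / 2) + X ^ 2 / 2 := by
    rw [hθ, hκ]; ring
  have e3 : (1 - 2 * η + η ^ 2 / 2) * (1 - η) ≤ 1 - 2 * η := by
    have h1 : 1 - 2 * η - (1 - 2 * η + η ^ 2 / 2) * (1 - η) = η * (1 - 5 / 2 * η + η ^ 2 / 2) := by
      ring
    have h2 : 0 ≤ η * (1 - 5 / 2 * η + η ^ 2 / 2) := by
      refine mul_nonneg hη0.le ?_
      have := sq_nonneg η
      linarith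
    linarith
  have e2 : θ * (1 - η) ≤ X * (1 - 2 * η) + X ^ 2 / 2 := by
    rw [e1]
    have h1 : X * ((1 - 2 * η + η ^ 2 / 2) * (1 - η)) ≤ X * (1 - 2 * η) :=
      mul_le_mul_of_nonneg_left e3 hXpos.le
    have h2 : 0 ≤ X ^ 2 / 2 * η := by positivity
    have h3 : (X * (1 - 2 * η + η ^ 2 / 2) + X ^ 2 / 2) * (1 - η)
      = X * ((1 - 2 * η + η ^ 2 / 2) * (1 - η)) + X ^ 2 / 2 - X ^ 2 / 2 * η := by ring
    rw [h3]; linarith
  have e4 : y + θ ≤ 5 / 2 * X := by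
    rw [hy, e1]
    have h1 : X * (1 - 2 * η + η ^ 2 / 2) ≤ X * 1 :=
      mul_le_mul_of_nonneg_left (by nlinarith) hXpos.le
    have h2 : X ^ 2 ≤ X * 1 := by
      rw [sq]; exact mul_le_mul_of_nonneg_left (by linarith) hXpos.le
    linarith
  have e5 : (y + θ) ^ 2 ≤ (5 / 2 * X) ^ 2 := pow_le_pow_left₀ (by linarith) e4 2
  have e6 : X ^ 2 * 4 ≤ γ := by
    rw [← hXγ]
    have : X * (4 * X) ≤ X * η := mul_le_mul_of_nonneg_left (by linarith) hXpos.le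
    linarith
  have e7 : (y + θ) ^ 2 + 2 * (θ * (1 - η)) ≤ 2 * y := by
    have h1 : (5 / 2 * X) ^ 2 = 25 / 4 * X ^ 2 := by ring
    have h2 : X * (1 - 2 * η) = X - 2 * γ := by rw [← hXγ]; ring
    rw [h2] at e2
    rw [h1] at e5
    rw [hy]
    rw [hy] at e5
    linarith
  have e8 : 0 ≤ θ * y ^ 2 := mul_nonneg hθ0 (sq_nonneg y)
  have e9 : (1 - θ) * (1 - y) ^ 2 + θ * (2 * (2 - η) - 1 + θ)
      = 1 + ((y + θ) ^ 2 + 2 * (θ * (1 - η)) - 2 * y) - θ * y ^ 2 := by ring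
  rw [e9]; linarith

/-- the two contractions: a point outside the ball around `a`, covered by the ball around `b`,
moves into both balls (`b'` is a centre nearest to the moved point) -/
lemma two_steps (a b b' z : (EuclideanSpace ℝ (Fin d))) {η γ X y κ θ : ℝ} (hη0 : 0 < η) (hη : η ≤ 2 / 5)
    (hγ0 : 0 < γ) (hγ : γ ≤ η ^ 2 / 4) (hX : X = γ / η) (hy : y = X - γ)
    (hκ : κ = X * ((2 - η) ^ 2 - 2 + X)) (hθ : θ = κ / 2)
    (hz1 : 1 ≤ ‖z - a‖) (hz2 : ‖z - a‖ ≤ 1 + γ) (hzb : ‖z - b‖ ≤ 1)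
    (hb : ‖b - a‖ ≤ 2 - η) (hb' : ‖b' - a‖ ≤ 2 - η)
    (hnear : ‖(a + (1 - X) • (z - a)) - b'‖ ≤ ‖(a + (1 - X) • (z - a)) - b‖) :
    ‖(b' + (1 - θ) • ((a + (1 - X) • (z - a)) - b')) - b'‖ ≤ 1 ∧
    ‖(b' + (1 - θ) • ((a + (1 - X) • (z - a)) - b')) - a‖ ≤ 1 := by
  have hXpos : 0 < X := by rw [hX]; positivity
  have hXγ : X * η = γ := by rw [hX]; field_simp
  have hXle : X ≤ η / 4 := by
    rw [hX, div_le_iff₀ hη0]
    have : η / 4 * η = η ^ 2 / 4 := by ring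
    rw [this]; exact hγ
  have hX1 : X ≤ 1 / 10 := by linarith
  have hη2 : 0 ≤ η ^ 2 := sq_nonneg η
  have hκ0 : 0 ≤ κ := by
    rw [hκ]
    refine mul_nonneg hXpos.le ?_
    have : (2 - η) ^ 2 - 2 + X = 2 - 4 * η + η ^ 2 + X := by ring
    rw [this]
    linarith
  have hκ1 : κ ≤ X * (2 + X) := by
    rw [hκ]
    refine mul_le_mul_of_nonneg_left ?_ hXpos.le
    have h1 : (2 - η) ^ 2 - 2 + X = 2 + X - η * (4 - η) := by ring
    have h2 : 0 ≤ η * (4 - η) := mul_nonneg hη0.le (by linarith)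
    rw [h1]; linarith
  have hκ2 : κ ≤ 1 / 4 := by
    refine hκ1.trans ?_
    calc X * (2 + X) ≤ (1 / 10) * (2 + 1 / 10) :=
          mul_le_mul hX1 (by linarith) (by linarith) (by norm_num)
      _ ≤ 1 / 4 := by norm_num
  have hθ0 : 0 ≤ θ := by rw [hθ]; linarith
  have hθ1 : θ ≤ 1 / 8 := by rw [hθ]; linarith
  set q := a + (1 - X) • (z - a) with hq
  -- distance from q to b
  have hqb : ‖q - b‖ ^ 2 ≤ 1 + κ := by
    have h := comb_sq a b z (1 - X)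
    rw [← hq] at h
    rw [h, hκ]
    have h1 : ‖z - b‖ ^ 2 ≤ 1 := pow_le_one₀ (norm_nonneg _) hzb
    have h2 : ‖b - a‖ ^ 2 ≤ (2 - η) ^ 2 := pow_le_pow_left₀ (norm_nonneg _) hb 2
    have h3 : 1 ≤ ‖z - a‖ ^ 2 := one_le_pow₀ hz1
    have h4 : (0:ℝ) ≤ 1 - X := by linarith
    have h5 := mul_nonneg hXpos.le (sub_nonneg.mpr h2)
    have h6 := mul_nonneg h4 (sub_nonneg.mpr h1)
    have h7 := mul_nonneg (mul_nonneg hXpos.le h4) (sub_nonneg.mpr h3)
    linarith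
  have hqb' : ‖q - b'‖ ^ 2 ≤ 1 + κ :=
    (pow_le_pow_left₀ (norm_nonneg _) hnear 2).trans hqb
  -- distance from q to a
  have hqa : ‖q - a‖ ≤ 1 - y := by
    have h1 : q - a = (1 - X) • (z - a) := by rw [hq]; abel
    rw [h1, norm_smul, Real.norm_eq_abs, abs_of_nonneg (by linarith)]
    calc (1 - X) * ‖z - a‖ ≤ (1 - X) * (1 + γ) :=
          mul_le_mul_of_nonneg_left hz2 (by linarith)
      _ ≤ 1 - y := by
          rw [hy]
          have h2 := mul_pos hXpos hγ0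
          have h3 : (1 - X) * (1 + γ) = 1 - (X - γ) - X * γ := by ring
          rw [h3]; linarith
  have hy0 : 0 < y := by
    rw [hy, ← hXγ]
    have : X - X * η = X * (1 - η) := by ring
    rw [this]
    exact mul_pos hXpos (by linarith)
  constructor
  · have h1 : (b' + (1 - θ) • (q - b')) - b' = (1 - θ) • (q - b') := by abel
    rw [h1]
    have h2 : ‖(1 - θ) • (q - b')‖ ^ 2 ≤ 1 := by
      rw [norm_smul, mul_pow, Real.norm_eq_abs, sq_abs]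
      have h4 : 0 ≤ κ ^ 2 * (3 / 4 - κ / 4) :=
        mul_nonneg (sq_nonneg κ) (by linarith)
      calc (1 - θ) ^ 2 * ‖q - b'‖ ^ 2 ≤ (1 - θ) ^ 2 * (1 + κ) :=
            mul_le_mul_of_nonneg_left hqb' (sq_nonneg _)
        _ = 1 - κ ^ 2 * (3 / 4 - κ / 4) := by rw [hθ]; ring
        _ ≤ 1 := by linarith
    exact (sq_le_one_iff₀ (norm_nonneg _)).mp h2
  · have h := comb_sq b' a q (1 - θ)
    set D := ‖b' - a‖ with hD
    have hab : ‖a - b'‖ = D := by rw [hD]; exact norm_sub_rev _ _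
    rw [hab] at h
    have hD0 : 0 ≤ D := norm_nonneg _
    -- lower bound for the distance from q to b'
    have htri : D ≤ ‖q - b'‖ + ‖q - a‖ := by
      rw [hD]
      have : b' - a = -(q - b') + (q - a) := by abel
      rw [this]
      refine (norm_add_le _ _).trans ?_
      rw [norm_neg]
    have hqa0 := norm_nonneg (q - a)
    have hqb0 := norm_nonneg (q - b')
    have hqa2 : ‖q - a‖ ^ 2 ≤ (1 - y) ^ 2 := pow_le_pow_left₀ hqa0 hqa 2
    have hkey : D ^ 2 - (1 - θ) * ‖q - b'‖ ^ 2 ≤ 2 * (2 - η) - 1 + θ := by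
      rcases le_or_gt D 1 with h1 | h1
      · have h2 : 0 ≤ (1 - θ) * ‖q - b'‖ ^ 2 := mul_nonneg (by linarith) (sq_nonneg _)
        have h3 : D ^ 2 ≤ 1 := pow_le_one₀ hD0 h1
        linarith
      · have h2 : D - 1 ≤ ‖q - b'‖ := by linarith
        have h3 : (D - 1) ^ 2 ≤ ‖q - b'‖ ^ 2 := pow_le_pow_left₀ (by linarith) h2 2
        have h4 : (1 - θ) * (D - 1) ^ 2 ≤ (1 - θ) * ‖q - b'‖ ^ 2 :=
          mul_le_mul_of_nonneg_left h3 (by linarith)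
        have h5 : (D - 1) ^ 2 ≤ 1 := pow_le_one₀ (by linarith) (by linarith)
        have h6 : θ * (D - 1) ^ 2 ≤ θ := mul_le_of_le_one_right hθ0 h5
        have h7 : D ^ 2 - (1 - θ) * (D - 1) ^ 2 = 2 * D - 1 + θ * (D - 1) ^ 2 := by ring
        linarith
    have hfin : (1 - θ) * (1 - y) ^ 2 + θ * (2 * (2 - η) - 1 + θ) ≤ 1 :=
      num_fin hη0 hη hXpos hγ0 hXγ hXle hy hκ hθ hθ0 hy0
    have hsq : ‖(b' + (1 - θ) • (q - b')) - a‖ ^ 2 ≤ 1 := by
      rw [h]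
      have h5 : (1 - θ) * ‖q - a‖ ^ 2 ≤ (1 - θ) * (1 - y) ^ 2 :=
        mul_le_mul_of_nonneg_left hqa2 (by linarith)
      have h6 : θ * (D ^ 2 - (1 - θ) * ‖q - b'‖ ^ 2) ≤ θ * (2 * (2 - η) - 1 + θ) :=
        mul_le_mul_of_nonneg_left hkey hθ0
      have h7 : (1 - θ) * ‖q - a‖ ^ 2 + (1 - (1 - θ)) * D ^ 2
          - (1 - θ) * (1 - (1 - θ)) * ‖q - b'‖ ^ 2
          = (1 - θ) * ‖q - a‖ ^ 2 + θ * (D ^ 2 - (1 - θ) * ‖q - b'‖ ^ 2) := by ring
      rw [h7]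
      linarith
    exact (sq_le_one_iff₀ (norm_nonneg _)).mp hsq

end SC87
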