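import Pool.Agent.SC87.Params

/-!
# Finite coverings by unit balls: large dimensions
-/

set_option autoImplicit false

open MeasureTheory Metric Set Module

namespace SC87

variable {d : ℕ}


lemma exp_le_one_sub {u : ℝ} (h0 : 0 ≤ u) (h1 : u ≤ 1 / 2) : Real.exp (-(2 * u)) ≤ 1 - u := by
  have h2 : 2 * u + 1 ≤ Real.exp (2 * u) := Real.add_one_le_exp _
  have h3 : 0 < Real.exp (2 * u) := Real.exp_pos _
  rw [Real.exp_neg, inv_le_iff_one_le_mul₀ h3]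
  have h4 : (1 - u) * (2 * u + 1) ≤ (1 - u) * Real.exp (2 * u) :=
    mul_le_mul_of_nonneg_left h2 (by linarith)
  have h5 : (1 - u) * (2 * u + 1) = 1 + u * (1 - 2 * u) := by ring
  have h6 : 0 ≤ u * (1 - 2 * u) := mul_nonneg h0 (by linarith)
  linarith

lemma lens_bound (a v : (EuclideanSpace ℝ (Fin d))) {t ρ : ℝ} (hv : ‖v‖ = t) (hρ0 : 0 ≤ ρ) (hρ : 1 - t ^ 2 / 4 ≤ ρ ^ 2) :
    (volume : Measure (EuclideanSpace ℝ (Fin d))).real (closedBall a 1 ∩ closedBall (a + v) 1) ≤ ρ ^ d * kap d := by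
  rw [← vol_ball (a + (1 / 2 : ℝ) • ((a + v) - a)) hρ0]
  refine measureReal_mono ?_ (ball_ne_top _ _)
  rintro z ⟨h1, h2⟩
  rw [mem_closedBall, dist_eq_norm] at h1 h2 ⊢
  have h3 : ‖z - a‖ ^ 2 ≤ 1 := pow_le_one₀ (norm_nonneg _) h1
  have h4 : ‖z - (a + v)‖ ^ 2 ≤ 1 := pow_le_one₀ (norm_nonneg _) h2
  have h5 := lens a (a + v) z h3 h4
  have h6 : a + v - a = v := by abel
  rw [h6, hv] at h5
  rw [h6]
  refine (sq_le_sq₀ (norm_nonneg _) hρ0).mp (h5.trans ?_)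
  linarith

lemma cap_bound (a v : (EuclideanSpace ℝ (Fin d))) {t ρ α γ : ℝ} (hv : ‖v‖ ≤ t) (ht : 0 < t) (hα : 0 ≤ α) (hγ : 0 ≤ γ)
    (hαt : 2 * α * t ≤ (1 + γ) ^ 2 - 1 - t ^ 2) (hρ0 : 0 ≤ ρ) (hρ : 1 - α ^ 2 ≤ ρ ^ 2) :
    (volume : Measure (EuclideanSpace ℝ (Fin d))).real ({z | 1 + γ < ‖z - a‖} ∩ closedBall (a + v) 1) ≤ ρ ^ d * kap d := by
  rcases eq_or_ne v 0 with hv0 | hv0
  · have hem : ({z : EuclideanSpace ℝ (Fin d) | 1 + γ < ‖z - a‖} ∩ closedBall (a + v) 1) = ∅ := by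
      rw [Set.eq_empty_iff_forall_notMem]
      rintro z ⟨h1, h2⟩
      rw [mem_closedBall, dist_eq_norm, hv0, add_zero] at h2
      rw [mem_ofPred_eq] at h1
      linarith
    rw [hem, measureReal_empty]
    exact mul_nonneg (pow_nonneg hρ0 d) kap_pos.le
  · rw [← vol_ball ((a + v) + (α / ‖v‖) • v) hρ0]
    refine measureReal_mono ?_ (ball_ne_top _ _)
    rintro z ⟨h1, h2⟩
    rw [mem_closedBall, dist_eq_norm] at h2 ⊢
    rw [mem_ofPred_eq] at h1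
    have h3 : z - a = (z - (a + v)) + v := by abel
    have h4 : ‖z - a‖ ^ 2 = ‖z - (a + v)‖ ^ 2 + 2 * inner ℝ (z - (a + v)) v + ‖v‖ ^ 2 := by
      rw [h3, norm_add_sq_real]
    have h5 : (1 + γ) ^ 2 ≤ ‖z - a‖ ^ 2 := pow_le_pow_left₀ (by linarith) h1.le 2
    have h6 : ‖z - (a + v)‖ ^ 2 ≤ 1 := pow_le_one₀ (norm_nonneg _) h2
    have h7 : ‖v‖ ^ 2 ≤ t ^ 2 := pow_le_pow_left₀ (norm_nonneg _) hv 2
    have h8 : α * t ≤ inner ℝ (z - (a + v)) v := by linarith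
    have h9 := cap (a + v) v z h2 hα ht hv h8 hv0
    exact (sq_le_sq₀ (norm_nonneg _) hρ0).mp (h9.trans hρ)

theorem gap_large : ∃ ε : ℝ, 0 < ε ∧ ∀ d : ℕ, 2 ^ 20 ≤ d → Gap d ε := by
  obtain ⟨A, hA⟩ : ∃ A : ℝ, A = Real.exp 12288 := ⟨_, rfl⟩
  have hA0 : 0 < A := by rw [hA]; exact Real.exp_pos _
  obtain ⟨ε, hε⟩ : ∃ ε : ℝ, ε = 1 / (16 * (A + 2)) := ⟨_, rfl⟩
  have hε0 : 0 < ε := by rw [hε]; positivity
  have hεA : 16 * (A + 2) * ε = 1 := by rw [hε]; field_simp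
  have hε1 : ε ≤ 1 / 32 := by
    have h1 : 0 ≤ A * ε := by positivity
    linarith
  refine ⟨ε, hε0, fun d hd => ?_⟩
  have hdR : (2 : ℝ) ^ 20 ≤ d := by exact_mod_cast hd
  have hd0 : (0 : ℝ) < d := lt_of_lt_of_le (by norm_num) hdR
  obtain ⟨η, hη⟩ : ∃ η : ℝ, η = 1 / 128 := ⟨_, rfl⟩
  obtain ⟨γ, hγ⟩ : ∃ γ : ℝ, γ = 16 / d := ⟨_, rfl⟩
  obtain ⟨X, hX⟩ : ∃ X : ℝ, X = γ / η := ⟨_, rfl⟩
  obtain ⟨κ, hκ⟩ : ∃ κ : ℝ, κ = X * ((2 - η) ^ 2 - 2 + X) := ⟨_, rfl⟩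
  obtain ⟨θ, hθ⟩ : ∃ θ : ℝ, θ = κ / 2 := ⟨_, rfl⟩
  obtain ⟨q, hq⟩ : ∃ q : ℝ, q = Real.sqrt d := ⟨_, rfl⟩
  have hq0 : 0 < q := by rw [hq]; exact Real.sqrt_pos.mpr hd0
  have hq2 : q ^ 2 = d := by rw [hq]; exact Real.sq_sqrt hd0.le
  have hη0 : 0 < η := by rw [hη]; norm_num
  have hγ0 : 0 < γ := by rw [hγ]; positivity
  have hη1 : η ≤ 2 / 5 := by rw [hη]; norm_num
  have hγ16 : γ ≤ 1 / 65536 := by
    rw [hγ, div_le_div_iff₀ hd0 (by norm_num)]
    have : (2 : ℝ) ^ 20 = 1048576 := by norm_num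
    linarith
  have hγη : γ ≤ η ^ 2 / 4 := by
    refine hγ16.trans ?_
    rw [hη]; norm_num
  obtain ⟨hX0, hX1, hθ0, hθ1⟩ := theta_bounds hη0 hη1 hγ0 hγη hX hκ hθ
  have hXd : d * X = 2048 := by
    rw [hX, hγ, hη]; field_simp; norm_num
  have hA1 : 1 ≤ A * ((1 - θ) * (1 - X)) ^ d := by
    have h1 : Real.exp (-(6 * X)) ≤ (1 - θ) * (1 - X) := by
      have h2 := exp_le_one_sub hθ0 (by linarith)
      have h3 := exp_le_one_sub hX0.le (by linarith)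
      have h4 : Real.exp (-(4 * X)) ≤ Real.exp (-(2 * θ)) :=
        Real.exp_le_exp.mpr (by linarith)
      have h5 : Real.exp (-(6 * X)) = Real.exp (-(4 * X)) * Real.exp (-(2 * X)) := by
        rw [← Real.exp_add]; congr 1; ring
      rw [h5]
      exact mul_le_mul (h4.trans h2) h3 (Real.exp_pos _).le (by linarith)
    have h2 : Real.exp (-(6 * X)) ^ d ≤ ((1 - θ) * (1 - X)) ^ d :=
      pow_le_pow_left₀ (Real.exp_pos _).le h1 d
    have h3 : Real.exp (-(6 * X)) ^ d = Real.exp (-12288) := by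
      rw [← Real.exp_nat_mul]
      congr 1
      have : (d : ℝ) * -(6 * X) = -(6 * (d * X)) := by ring
      rw [this, hXd]; norm_num
    have h4 : A * Real.exp (-12288) = 1 := by
      rw [hA, ← Real.exp_add]; norm_num
    calc (1 : ℝ) = A * Real.exp (-12288) := h4.symm
      _ = A * Real.exp (-(6 * X)) ^ d := by rw [h3]
      _ ≤ A * ((1 - θ) * (1 - X)) ^ d := mul_le_mul_of_nonneg_left h2 hA0.le
  obtain ⟨ρ, hρ⟩ : ∃ ρ : ℝ, ρ = Real.exp (-(2 / d)) := ⟨_, rfl⟩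
  have hρ0 : 0 ≤ ρ := by rw [hρ]; exact (Real.exp_pos _).le
  have hρ2 : 1 - 4 / d ≤ ρ ^ 2 := by
    have h1 : ρ ^ 2 = Real.exp (-(4 / d)) := by
      rw [hρ, ← Real.exp_nat_mul]
      congr 1
      push_cast
      ring
    rw [h1]
    exact Real.one_sub_le_exp_neg _
  have hρd : ρ ^ d ≤ 1 / 4 := by
    have h1 : ρ ^ d = Real.exp (-2) := by
      rw [hρ, ← Real.exp_nat_mul]
      congr 1
      field_simp
    rw [h1, Real.exp_neg]
    have h2 : (1 : ℝ) + 1 ≤ Real.exp 1 := Real.add_one_le_exp 1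
    have h3 : Real.exp 2 = Real.exp 1 * Real.exp 1 := by
      rw [← Real.exp_add]; norm_num
    have h4 : 4 ≤ Real.exp 2 := by
      rw [h3]
      calc (4 : ℝ) = 2 * 2 := by norm_num
        _ ≤ Real.exp 1 * Real.exp 1 := mul_le_mul (by linarith) (by linarith) (by norm_num)
            (Real.exp_pos _).le
    rw [inv_le_comm₀ (Real.exp_pos _) (by norm_num)]
    norm_num
    exact h4
  have hd5 : 5 ≤ d := le_trans (by norm_num) hd
  refine gap_of_params hη0 hη1 hγ0 hγη hX hκ hθ hA0.le hA1 hε0 (by linarith)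
    (t := 4 / q) (ψ := ρ ^ d) (τ := ρ ^ d) (r := 1 / 8) (by positivity) (pow_nonneg hρ0 d)
    ?_ ?_ (by norm_num) ?_ ?_
  · intro a v hv
    refine lens_bound a v hv hρ0 ?_
    have h1 : (4 / q) ^ 2 / 4 = 4 / d := by
      rw [div_pow, hq2]; ring
    rw [h1]; exact hρ2
  · intro a v hv
    refine cap_bound a v (α := 2 / q) hv (by positivity) (by positivity) hγ0.le ?_ hρ0 ?_
    · have h1 : 2 * (2 / q) * (4 / q) = 16 / d := by
        rw [← hq2]; field_simp; norm_num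
      have h2 : (4 / q) ^ 2 = 16 / d := by
        rw [div_pow, hq2]; norm_num
      rw [h1, h2, ← hγ]
      have h3 : (1 + γ) ^ 2 - 1 - γ = γ + γ ^ 2 := by ring
      rw [h3]
      have := sq_nonneg γ
      linarith
    · have h1 : (2 / q) ^ 2 = 4 / d := by
        rw [div_pow, hq2]; norm_num
      rw [h1]; exact hρ2
  · have h1 : γ ^ 2 ≤ 1 / 65536 := by
      calc γ ^ 2 = γ * γ := sq γ
        _ ≤ (1 / 65536) * 1 := mul_le_mul hγ16 (by linarith) hγ0.le (by norm_num)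
        _ = 1 / 65536 := by norm_num
    rw [hη]
    norm_num
    linarith
  · have h1 : (3 + γ) ^ d * (1 / 8 : ℝ) ^ d ≤ 1 / 32 := by
      rw [← mul_pow]
      have h2 : (3 + γ) * (1 / 8 : ℝ) ≤ 1 / 2 := by linarith
      calc ((3 + γ) * (1 / 8 : ℝ)) ^ d ≤ (1 / 2 : ℝ) ^ d :=
            pow_le_pow_left₀ (by positivity) h2 d
        _ ≤ (1 / 2 : ℝ) ^ 5 := pow_le_pow_of_le_one (by norm_num) (by norm_num) hd5
        _ = 1 / 32 := by norm_num
    have h3 : 2 * (3 + γ) ^ d / (1 - 4 * ε) * (1 / 8 : ℝ) ^ d ≤ 1 / 8 := by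
      have h4 : 0 < 1 - 4 * ε := by linarith
      rw [div_mul_eq_mul_div, div_le_iff₀ h4]
      have h5 : 2 * (3 + γ) ^ d * (1 / 8 : ℝ) ^ d ≤ 1 / 16 := by
        have : 2 * (3 + γ) ^ d * (1 / 8 : ℝ) ^ d = 2 * ((3 + γ) ^ d * (1 / 8 : ℝ) ^ d) := by ring
        rw [this]; linarith
      linarith
    have h4 : A * (4 * ε) + 2 * (4 * ε) = 1 / 4 := by
      have : A * (4 * ε) + 2 * (4 * ε) = (16 * (A + 2) * ε) / 4 := by ring
      rw [this, hεA]
    rw [h4]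
    linarith

theorem gap_all : ∃ ε : ℝ, 0 < ε ∧ ∀ d : ℕ, 5 ≤ d → Gap d ε := by
  obtain ⟨ε₁, h1, hL⟩ := gap_large
  have key : ∀ D : ℕ, ∃ ε : ℝ, 0 < ε ∧ ∀ d : ℕ, 5 ≤ d → d < D → Gap d ε := by
    intro D
    induction D with
    | zero => exact ⟨1, one_pos, fun d _ h => absurd h (Nat.not_lt_zero d)⟩
    | succ D ih =>
      obtain ⟨ε, hε, h⟩ := ih
      by_cases hD : 5 ≤ D
      · obtain ⟨ε', hε', h'⟩ := gap_small hD
        refine ⟨min ε ε', lt_min hε hε', fun d hd hdD => ?_⟩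
        rcases Nat.lt_succ_iff_lt_or_eq.1 hdD with h2 | h2
        · exact (h d hd h2).mono (min_le_left _ _)
        · rw [h2]
          exact h'.mono (min_le_right _ _)
      · refine ⟨ε, hε, fun d hd hdD => ?_⟩
        exact absurd hd (by omega)
  obtain ⟨ε₂, h2, hS⟩ := key (2 ^ 20)
  refine ⟨min ε₁ ε₂, lt_min h1 h2, fun d hd => ?_⟩
  rcases lt_or_ge d (2 ^ 20) with h | h
  · exact (hS d hd h).mono (min_le_right _ _)
  · exact (hL d h).mono (min_le_left _ _)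

/-- uniform gap, for arbitrary convex sets -/
theorem uniform_gap : ∃ c : ℝ, 0 < c ∧ ∀ d : ℕ, 5 ≤ d → ∀ k : ℕ, 2 ≤ k →
    ∀ (b : Fin k → EuclideanSpace ℝ (Fin d)) (C : Set (EuclideanSpace ℝ (Fin d))),
      Convex ℝ C → C ⊆ ⋃ i, closedBall (b i) 1 →
      (1 + c) * (volume : Measure (EuclideanSpace ℝ (Fin d))).real C
        ≤ k * (volume : Measure (EuclideanSpace ℝ (Fin d))).real (closedBall 0 1) := by
  obtain ⟨ε, hε, h⟩ := gap_all
  refine ⟨ε, hε, fun d hd k hk b C hC hcov => ?_⟩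
  have hU : IsClosed (⋃ i, closedBall (b i) 1) := isClosed_iUnion_of_finite fun i => isClosed_closedBall
  have hcl : closure C ⊆ ⋃ i, closedBall (b i) 1 := closure_minimal hcov hU
  have hfin : (volume : Measure (EuclideanSpace ℝ (Fin d))) (closure C) ≠ ⊤ := by
    have h1 : (volume : Measure (EuclideanSpace ℝ (Fin d))) (⋃ i, closedBall (b i) 1) ≠ ⊤ := by
      have h2 := measure_iUnion_fintype_le (volume : Measure (EuclideanSpace ℝ (Fin d)))
        (fun i => closedBall (b i) 1)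
      exact ne_top_of_le_ne_top (ENNReal.sum_ne_top.mpr fun i _ => ball_ne_top (b i) 1) h2
    exact ne_top_of_le_ne_top h1 (measure_mono hcl)
  have h1 := h d hd k hk b (closure C) hC.closure isClosed_closure.measurableSet (by
    intro x hx
    have h2 := hcl hx
    rw [mem_iUnion] at h2
    obtain ⟨i, hi⟩ := h2
    rw [mem_closedBall, dist_eq_norm] at hi
    exact ⟨i, hi⟩)
  have h2 : (volume : Measure (EuclideanSpace ℝ (Fin d))).real C
      ≤ (volume : Measure (EuclideanSpace ℝ (Fin d))).real (closure C) :=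
    measureReal_mono subset_closure hfin
  have h3 : (volume : Measure (EuclideanSpace ℝ (Fin d))).real C ≤ (1 - ε) * k * kap d :=
    h2.trans h1
  have h4 : 0 ≤ (k : ℝ) * kap d := mul_nonneg (Nat.cast_nonneg k) kap_pos.le
  calc (1 + ε) * (volume : Measure (EuclideanSpace ℝ (Fin d))).real C
      ≤ (1 + ε) * ((1 - ε) * k * kap d) := mul_le_mul_of_nonneg_left h3 (by linarith)
    _ = k * kap d - ε ^ 2 * (k * kap d) := by ring
    _ ≤ k * kap d := by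
        have := mul_nonneg (sq_nonneg ε) h4
        linarith

end SC87
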