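import Pool.Agent.SC87.Count

/-!
# Finite coverings by unit balls: the local inequality
-/

set_option autoImplicit false

open MeasureTheory Metric Set Module

namespace SC87

variable {d : ℕ}


lemma real_pre (v : (EuclideanSpace ℝ (Fin d))) (s : Set (EuclideanSpace ℝ (Fin d))) :
    (volume : Measure (EuclideanSpace ℝ (Fin d))).real ((fun z => z + v) ⁻¹' s) = (volume : Measure (EuclideanSpace ℝ (Fin d))).real s := by
  rw [measureReal_def, measureReal_def, measure_preimage_add_right]

theorem local_ineq {k : ℕ} (b : Fin k → (EuclideanSpace ℝ (Fin d))) {C : Set (EuclideanSpace ℝ (Fin d))} (hC : Convex ℝ C)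
    (hCm : MeasurableSet C) (hcov : ∀ x ∈ C, ∃ i, ‖x - b i‖ ≤ 1) {i j : Fin k} (hij : i ≠ j)
    {η γ X κ θ A δ t ψ τ r : ℝ} (hη0 : 0 < η) (hη : η ≤ 2 / 5) (hγ0 : 0 < γ)
    (hγ : γ ≤ η ^ 2 / 4) (hX : X = γ / η) (hκ : κ = X * ((2 - η) ^ 2 - 2 + X)) (hθ : θ = κ / 2)
    (hA0 : 0 ≤ A) (hA : 1 ≤ A * ((1 - θ) * (1 - X)) ^ d) (hδ : δ < 1)
    (hi : (1 - δ) * kap d ≤ (volume : Measure (EuclideanSpace ℝ (Fin d))).real (exc b C i))
    (hj : (1 - δ) * kap d ≤ (volume : Measure (EuclideanSpace ℝ (Fin d))).real (exc b C j))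
    (ht : 0 < t) (hψ0 : 0 ≤ ψ)
    (hψ : ∀ v : (EuclideanSpace ℝ (Fin d)), ‖v‖ = t →
      (volume : Measure (EuclideanSpace ℝ (Fin d))).real (closedBall (b i) 1 ∩ closedBall (b i + v) 1) ≤ ψ * kap d)
    (hτ : ∀ v : (EuclideanSpace ℝ (Fin d)), ‖v‖ ≤ t →
      (volume : Measure (EuclideanSpace ℝ (Fin d))).real ({z | 1 + γ < ‖z - b i‖} ∩ closedBall (b i + v) 1) ≤ τ * kap d)
    (hr0 : 0 ≤ r) (hr : γ + γ ^ 2 / 2 + η - η ^ 2 / 4 ≤ r ^ 2) :
    1 ≤ A * δ + 2 * δ + (Finset.univ.filter fun l => ‖b l - b i‖ ≤ 2 + γ).card * r ^ d + ψ + τ := by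
  classical
  have hκp : 0 < kap d := kap_pos
  set a := b i with ha
  set w := b j - b i with hw
  have hvolB : (volume : Measure (EuclideanSpace ℝ (Fin d))).real (closedBall a 1) = kap d := by
    rw [vol_ball a zero_le_one, one_pow, one_mul]
  have hEi_fin : (volume : Measure (EuclideanSpace ℝ (Fin d))) (exc b C i) ≠ ⊤ :=
    ne_top_of_le_ne_top (ball_ne_top (b i) 1) (measure_mono (exc_sub_ball b C i))
  have hEj_fin : (volume : Measure (EuclideanSpace ℝ (Fin d))) (exc b C j) ≠ ⊤ :=
    ne_top_of_le_ne_top (ball_ne_top (b j) 1) (measure_mono (exc_sub_ball b C j))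
  -- `w` is not zero
  have hw0 : w ≠ 0 := by
    intro h0
    have h1 : 0 < (volume : Measure (EuclideanSpace ℝ (Fin d))).real (exc b C i) :=
      lt_of_lt_of_le (mul_pos (by linarith) hκp) hi
    have h2 : (exc b C i).Nonempty := by
      by_contra hem
      rw [Set.not_nonempty_iff_eq_empty] at hem
      rw [hem, measureReal_empty] at h1
      exact lt_irrefl _ h1
    obtain ⟨x, hx⟩ := h2
    have h3 : b j = b i := sub_eq_zero.mp h0
    have h4 := hx.2.2 j (Ne.symm hij)
    rw [h3] at h4
    exact absurd hx.2.1 (not_le.mpr h4)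
  have hwpos : 0 < ‖w‖ := norm_pos_iff.mpr hw0
  -- the set `G`
  set G : Set (EuclideanSpace ℝ (Fin d)) := exc b C i ∩ (fun x => x + w) ⁻¹' exc b C j with hG
  have hGm : MeasurableSet G := by
    refine (exc_meas b hCm i).inter ?_
    exact (measurable_id.add_const w) (exc_meas b hCm j)
  have hpre : (fun x => x + w) ⁻¹' exc b C j ⊆ closedBall a 1 := by
    intro x hx
    have h1 := exc_sub_ball b C j hx
    rw [mem_closedBall, dist_eq_norm] at h1 ⊢
    have h2 : x + w - b j = x - a := by rw [hw, ha]; abel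
    rw [← h2]; exact h1
  have hGvol : (1 - 2 * δ) * kap d ≤ (volume : Measure (EuclideanSpace ℝ (Fin d))).real G := by
    have h1 := measureReal_union_add_inter (μ := (volume : Measure (EuclideanSpace ℝ (Fin d)))) (s := exc b C i)
      (t := (fun x => x + w) ⁻¹' exc b C j)
      ((measurable_id.add_const w) (exc_meas b hCm j)) hEi_fin
      (ne_top_of_le_ne_top (ball_ne_top a 1) (measure_mono hpre))
    have h2 : (volume : Measure (EuclideanSpace ℝ (Fin d))).real (exc b C i ∪ (fun x => x + w) ⁻¹' exc b C j) ≤ kap d := by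
      rw [← hvolB]
      refine measureReal_mono (union_subset ?_ hpre) (ball_ne_top a 1)
      exact exc_sub_ball b C i
    have h3 : (volume : Measure (EuclideanSpace ℝ (Fin d))).real ((fun x => x + w) ⁻¹' exc b C j)
        = (volume : Measure (EuclideanSpace ℝ (Fin d))).real (exc b C j) := real_pre w _
    rw [h3] at h1
    have h4 : (volume : Measure (EuclideanSpace ℝ (Fin d))).real G
        = (volume : Measure (EuclideanSpace ℝ (Fin d))).real (exc b C i ∩ (fun x => x + w) ⁻¹' exc b C j) := rfl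
    rw [h4]
    linarith
  -- the shift
  set lam : ℝ := min 1 (t / ‖w‖) with hlam
  have hlam0 : 0 < lam := lt_min one_pos (div_pos ht hwpos)
  have hlam1 : lam ≤ 1 := min_le_left _ _
  set v : (EuclideanSpace ℝ (Fin d)) := lam • w with hv
  have hvn : ‖v‖ = lam * ‖w‖ := by rw [hv, norm_smul, Real.norm_eq_abs, abs_of_pos hlam0]
  have hvt : ‖v‖ ≤ t := by
    rw [hvn]
    calc lam * ‖w‖ ≤ t / ‖w‖ * ‖w‖ := mul_le_mul_of_nonneg_right (min_le_right _ _) hwpos.le
      _ = t := div_mul_cancel₀ _ hwpos.ne'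
  set Gv : Set (EuclideanSpace ℝ (Fin d)) := (fun z => z + (-v)) ⁻¹' G with hGv
  have hGvm : MeasurableSet Gv := (measurable_id.add_const (-v)) hGm
  have hGvvol : (volume : Measure (EuclideanSpace ℝ (Fin d))).real Gv = (volume : Measure (EuclideanSpace ℝ (Fin d))).real G := real_pre (-v) G
  have hGvb : Gv ⊆ closedBall (a + v) 1 := by
    intro z hz
    have h1 := exc_sub_ball b C i hz.1
    rw [mem_closedBall, dist_eq_norm] at h1 ⊢
    have h2 : z + -v - b i = z - (a + v) := by rw [ha]; abel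
    rw [← h2]; exact h1
  have hGvfin : (volume : Measure (EuclideanSpace ℝ (Fin d))) Gv ≠ ⊤ :=
    ne_top_of_le_ne_top (ball_ne_top (a + v) 1) (measure_mono hGvb)
  have hGvC : Gv ⊆ C := by
    intro z hz
    have h1 : z + -v ∈ C := hz.1.1
    have h2 : z + -v + w ∈ C := hz.2.1
    have h3 := hC h1 h2 (by linarith : (0:ℝ) ≤ 1 - lam) hlam0.le (by ring)
    have h4 : (1 - lam) • (z + -v) + lam • (z + -v + w) = z := by
      rw [hv]; module
    rw [h4] at h3
    exact h3
  -- the set `Z`
  set Z : Set (EuclideanSpace ℝ (Fin d)) := Gv \ closedBall a 1 with hZ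
  have hZm : MeasurableSet Z := hGvm.diff measurableSet_closedBall
  have hZfin : (volume : Measure (EuclideanSpace ℝ (Fin d))) Z ≠ ⊤ :=
    ne_top_of_le_ne_top hGvfin (measure_mono diff_subset)
  have hinter : (volume : Measure (EuclideanSpace ℝ (Fin d))).real (Gv ∩ closedBall a 1) ≤ ψ * kap d := by
    rcases le_or_gt ‖w‖ t with h | h
    · have hl1 : lam = 1 := by
        rw [hlam]
        refine min_eq_left ?_
        rw [le_div_iff₀ hwpos]; linarith
      have hvw : v = w := by rw [hv, hl1, one_smul]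
      have hem : Gv ∩ closedBall a 1 = ∅ := by
        rw [Set.eq_empty_iff_forall_notMem]
        rintro z ⟨hz, hz2⟩
        have h1 : z + -v + w ∈ exc b C j := hz.2
        have h2 : z + -v + w = z := by rw [hvw]; abel
        rw [h2] at h1
        have h3 := h1.2.2 i hij
        rw [mem_closedBall, dist_eq_norm] at hz2
        exact absurd hz2 (not_le.mpr h3)
      rw [hem, measureReal_empty]
      positivity
    · have hl1 : lam = t / ‖w‖ := by
        rw [hlam]
        refine min_eq_right ?_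
        rw [div_le_one hwpos]; exact h.le
      have hvt' : ‖v‖ = t := by rw [hvn, hl1, div_mul_cancel₀ _ hwpos.ne']
      refine (measureReal_mono ?_ ?_).trans (hψ v hvt')
      · rintro z ⟨hz, hz2⟩
        exact ⟨hz2, hGvb hz⟩
      · exact ne_top_of_le_ne_top (ball_ne_top a 1) (measure_mono inter_subset_left)
  have hZvol : (1 - 2 * δ - ψ) * kap d ≤ (volume : Measure (EuclideanSpace ℝ (Fin d))).real Z := by
    have h1 := measureReal_inter_add_diff (μ := (volume : Measure (EuclideanSpace ℝ (Fin d)))) (s := Gv)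
      (t := closedBall a 1) measurableSet_closedBall hGvfin
    have h2 : (volume : Measure (EuclideanSpace ℝ (Fin d))).real Z = (volume : Measure (EuclideanSpace ℝ (Fin d))).real (Gv \ closedBall a 1) := rfl
    rw [h2]
    linarith
  -- the three parts
  set N : Finset (Fin k) := Finset.univ.filter fun l => ‖b l - a‖ ≤ 2 + γ with hN
  set T : Finset (EuclideanSpace ℝ (Fin d)) := (Finset.univ.filter fun l => l ≠ i ∧ ‖b l - a‖ ≤ 2 - η).image b with hT
  set Zt : Set (EuclideanSpace ℝ (Fin d)) := {z | 1 + γ < ‖z - a‖} ∩ closedBall (a + v) 1 with hZt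
  set Zf : Set (EuclideanSpace ℝ (Fin d)) := ⋃ l ∈ N, closedBall (a + (1 / 2 : ℝ) • (b l - a)) r with hZf
  set Zm : Set (EuclideanSpace ℝ (Fin d)) := Z ∩ ({z | ‖z - a‖ ≤ 1 + γ} ∩ ⋃ c ∈ T, closedBall c 1) with hZm'
  have hZmm : MeasurableSet Zm := by
    refine hZm.inter (MeasurableSet.inter ?_ ?_)
    · exact (isClosed_le (by fun_prop) continuous_const).measurableSet
    · exact Finset.measurableSet_biUnion T fun c _ => measurableSet_closedBall
  have hsplit : Z ⊆ Zt ∪ (Zf ∪ Zm) := by
    intro z hz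
    have hzC : z ∈ C := hGvC hz.1
    have hz1 : 1 < ‖z - a‖ := by
      have h := hz.2
      rw [mem_closedBall, dist_eq_norm, not_le] at h
      exact h
    obtain ⟨l, hl⟩ := hcov z hzC
    have hli : l ≠ i := by
      rintro rfl
      exact absurd hl (not_le.mpr hz1)
    rcases lt_or_ge (1 + γ) ‖z - a‖ with h1 | h1
    · left
      exact ⟨h1, hGvb hz.1⟩
    · right
      have hbl : ‖b l - a‖ ≤ 2 + γ := by
        have h2 : b l - a = (z - a) - (z - b l) := by abel
        rw [h2]
        refine (norm_sub_le _ _).trans ?_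
        linarith
      rcases lt_or_ge (2 - η) ‖b l - a‖ with h2 | h2
      · left
        simp only [hZf, mem_iUnion]
        refine ⟨l, ?_, ?_⟩
        · rw [hN, Finset.mem_filter]
          exact ⟨Finset.mem_univ _, hbl⟩
        · rw [mem_closedBall, dist_eq_norm]
          have h3 : ‖z - a‖ ^ 2 ≤ (1 + γ) ^ 2 := pow_le_pow_left₀ (norm_nonneg _) h1 2
          have h4 : ‖z - b l‖ ^ 2 ≤ 1 := pow_le_one₀ (norm_nonneg _) hl
          have h5 := lens a (b l) z h3 h4
          have h6 : (2 - η) ^ 2 ≤ ‖b l - a‖ ^ 2 := pow_le_pow_left₀ (by linarith) h2.le 2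
          refine (sq_le_sq₀ (norm_nonneg _) hr0).mp (h5.trans ?_)
          refine le_trans ?_ hr
          linarith
      · right
        refine ⟨hz, h1, ?_⟩
        simp only [mem_iUnion]
        refine ⟨b l, ?_, ?_⟩
        · rw [hT, Finset.mem_image]
          exact ⟨l, Finset.mem_filter.mpr ⟨Finset.mem_univ _, hli, h2⟩, rfl⟩
        · rw [mem_closedBall, dist_eq_norm]; exact hl
  have hZt_fin : (volume : Measure (EuclideanSpace ℝ (Fin d))) Zt ≠ ⊤ :=
    ne_top_of_le_ne_top (ball_ne_top (a + v) 1) (measure_mono inter_subset_right)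
  have hZf_fin : (volume : Measure (EuclideanSpace ℝ (Fin d))) Zf ≠ ⊤ := by
    have h : (volume : Measure (EuclideanSpace ℝ (Fin d))) Zf < ⊤ := by
      rw [hZf]
      exact (measure_biUnion_lt_top N.finite_toSet fun l _ => measure_closedBall_lt_top)
    exact h.ne
  have hZm_fin : (volume : Measure (EuclideanSpace ℝ (Fin d))) Zm ≠ ⊤ :=
    ne_top_of_le_ne_top hZfin (measure_mono inter_subset_left)
  have hsum : (volume : Measure (EuclideanSpace ℝ (Fin d))).real Z ≤ (volume : Measure (EuclideanSpace ℝ (Fin d))).real Zt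
      + ((volume : Measure (EuclideanSpace ℝ (Fin d))).real Zf + (volume : Measure (EuclideanSpace ℝ (Fin d))).real Zm) := by
    have h1 := measureReal_mono (μ := (volume : Measure (EuclideanSpace ℝ (Fin d)))) hsplit
      (measure_union_ne_top hZt_fin (measure_union_ne_top hZf_fin hZm_fin))
    have h2 := measureReal_union_le (μ := (volume : Measure (EuclideanSpace ℝ (Fin d)))) Zt (Zf ∪ Zm)
    have h3 := measureReal_union_le (μ := (volume : Measure (EuclideanSpace ℝ (Fin d)))) Zf Zm
    linarith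
  have hZt_vol : (volume : Measure (EuclideanSpace ℝ (Fin d))).real Zt ≤ τ * kap d := hτ v hvt
  have hZf_vol : (volume : Measure (EuclideanSpace ℝ (Fin d))).real Zf ≤ N.card * r ^ d * kap d := by
    have h1 : (volume : Measure (EuclideanSpace ℝ (Fin d))).real Zf
        ≤ ∑ l ∈ N, (volume : Measure (EuclideanSpace ℝ (Fin d))).real (closedBall (a + (1 / 2 : ℝ) • (b l - a)) r) :=
      measureReal_biUnion_finset_le _ _
    refine h1.trans ?_
    rw [Finset.sum_congr rfl (fun l _ => vol_ball (a + (1 / 2 : ℝ) • (b l - a)) hr0),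
      Finset.sum_const, nsmul_eq_mul, mul_assoc]
  have hZm_vol : (volume : Measure (EuclideanSpace ℝ (Fin d))).real Zm ≤ A * δ * kap d := by
    have h1 := mid_bound a T hη0 hη hγ0 hγ hX hκ hθ (by
      intro c hc
      rw [hT, Finset.mem_image] at hc
      obtain ⟨l, hl, rfl⟩ := hc
      exact (Finset.mem_filter.mp hl).2.2) hZmm (by
      rintro z ⟨hz, hz1, hz2⟩
      have h := hz.2
      rw [mem_closedBall, dist_eq_norm, not_le] at h
      refine ⟨h.le, hz1, ?_⟩
      simp only [mem_iUnion] at hz2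
      obtain ⟨c, hc, hz3⟩ := hz2
      rw [mem_closedBall, dist_eq_norm] at hz3
      exact ⟨c, hc, hz3⟩)
    have h2 : (closedBall a 1 ∩ ⋃ c ∈ T, closedBall c 1) ⊆ closedBall a 1 \ exc b C i := by
      rintro z ⟨hz1, hz2⟩
      refine ⟨hz1, fun hz3 => ?_⟩
      simp only [mem_iUnion] at hz2
      obtain ⟨c, hc, hz4⟩ := hz2
      rw [hT, Finset.mem_image] at hc
      obtain ⟨l, hl, rfl⟩ := hc
      rw [mem_closedBall, dist_eq_norm] at hz4
      exact absurd hz4 (not_le.mpr (hz3.2.2 l (Finset.mem_filter.mp hl).2.1))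
    have h3 : (volume : Measure (EuclideanSpace ℝ (Fin d))).real (closedBall a 1 \ exc b C i) ≤ δ * kap d := by
      have h4 := measureReal_diff (μ := (volume : Measure (EuclideanSpace ℝ (Fin d)))) (s₁ := closedBall a 1)
        (exc_sub_ball b C i) (exc_meas b hCm i)
        (ball_ne_top a 1)
      rw [h4, hvolB]
      linarith
    have h5 : (volume : Measure (EuclideanSpace ℝ (Fin d))) (closedBall a 1 ∩ ⋃ c ∈ T, closedBall c 1) ≠ ⊤ :=
      ne_top_of_le_ne_top (ball_ne_top a 1) (measure_mono inter_subset_left)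
    have h6 := ENNReal.toReal_mono h5 h1
    rw [ENNReal.toReal_mul] at h6
    have h7 : 0 ≤ ((1 - θ) * (1 - X)) ^ d := by
      by_contra hneg
      push Not at hneg
      have := mul_nonpos_of_nonneg_of_nonpos hA0 hneg.le
      linarith
    rw [ENNReal.toReal_ofReal h7] at h6
    have h8 : (volume : Measure (EuclideanSpace ℝ (Fin d))).real (closedBall a 1 ∩ ⋃ c ∈ T, closedBall c 1)
        ≤ (volume : Measure (EuclideanSpace ℝ (Fin d))).real (closedBall a 1 \ exc b C i) :=
      measureReal_mono h2 (ne_top_of_le_ne_top (ball_ne_top a 1) (measure_mono diff_subset))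
    have h9 : ((1 - θ) * (1 - X)) ^ d * (volume : Measure (EuclideanSpace ℝ (Fin d))).real Zm ≤ δ * kap d :=
      (h6.trans h8).trans h3
    have h10 : 0 ≤ (volume : Measure (EuclideanSpace ℝ (Fin d))).real Zm := measureReal_nonneg
    calc (volume : Measure (EuclideanSpace ℝ (Fin d))).real Zm = 1 * (volume : Measure (EuclideanSpace ℝ (Fin d))).real Zm := (one_mul _).symm
      _ ≤ (A * ((1 - θ) * (1 - X)) ^ d) * (volume : Measure (EuclideanSpace ℝ (Fin d))).real Zm :=
          mul_le_mul_of_nonneg_right hA h10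
      _ = A * (((1 - θ) * (1 - X)) ^ d * (volume : Measure (EuclideanSpace ℝ (Fin d))).real Zm) := by ring
      _ ≤ A * (δ * kap d) := mul_le_mul_of_nonneg_left h9 hA0
      _ = A * δ * kap d := by ring
  have hfin : 1 * kap d ≤ (A * δ + 2 * δ + N.card * r ^ d + ψ + τ) * kap d := by
    have : (A * δ + 2 * δ + N.card * r ^ d + ψ + τ) * kap d
      = A * δ * kap d + 2 * δ * kap d + N.card * r ^ d * kap d + ψ * kap d + τ * kap d := by ring
    rw [this]
    linarith
  exact le_of_mul_le_mul_right hfin hκp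

end SC87
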