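import Pool.Agent.SC87.Geom

/-!
# Finite coverings by unit balls: contraction towards nearest centres
-/

set_option autoImplicit false

open MeasureTheory Metric Set Module

namespace SC87

variable {d : ℕ}


/-- contraction towards `b` -/
noncomputable def con (b : (EuclideanSpace ℝ (Fin d))) (r : ℝ) (q : (EuclideanSpace ℝ (Fin d))) : (EuclideanSpace ℝ (Fin d)) := b + r • (q - b)

lemma con_eq (b : (EuclideanSpace ℝ (Fin d))) (r : ℝ) : con b r = AffineMap.homothety b r := by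
  funext q
  rw [con, AffineMap.homothety_apply]
  simp [add_comm]

lemma con_continuous (b : (EuclideanSpace ℝ (Fin d))) (r : ℝ) : Continuous (con b r) := by
  unfold con; fun_prop

lemma con_injective (b : (EuclideanSpace ℝ (Fin d))) {r : ℝ} (hr : r ≠ 0) : Function.Injective (con b r) := by
  intro x y h
  simp only [con, add_right_inj] at h
  have h1 := smul_right_injective (EuclideanSpace ℝ (Fin d)) hr h
  exact sub_left_injective h1

lemma con_volume (b : (EuclideanSpace ℝ (Fin d))) {r : ℝ} (hr : 0 ≤ r) (s : Set (EuclideanSpace ℝ (Fin d))) :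
    volume (con b r '' s) = ENNReal.ofReal (r ^ d) * volume s := by
  rw [con_eq, Measure.addHaar_image_homothety, finrank_euclideanSpace_fin,
    abs_of_nonneg (pow_nonneg hr _)]

lemma con_meas (b : (EuclideanSpace ℝ (Fin d))) {r : ℝ} (hr : r ≠ 0) {s : Set (EuclideanSpace ℝ (Fin d))} (hs : MeasurableSet s) :
    MeasurableSet (con b r '' s) :=
  hs.image_of_continuousOn_injOn (con_continuous b r).continuousOn (con_injective b hr).injOn

/-- the Voronoi part of `Q` for the centre `b` -/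
def vor (T : Finset (EuclideanSpace ℝ (Fin d))) (Q : Set (EuclideanSpace ℝ (Fin d))) (b : (EuclideanSpace ℝ (Fin d))) : Set (EuclideanSpace ℝ (Fin d)) :=
  {q | q ∈ Q ∧ ∀ b' ∈ T, ‖q - b‖ ≤ ‖q - b'‖}

lemma vor_meas (T : Finset (EuclideanSpace ℝ (Fin d))) {Q : Set (EuclideanSpace ℝ (Fin d))} (hQ : MeasurableSet Q) (b : (EuclideanSpace ℝ (Fin d))) :
    MeasurableSet (vor T Q b) := by
  have h : vor T Q b = Q ∩ ⋂ b' ∈ T, {q | ‖q - b‖ ≤ ‖q - b'‖} := by
    ext q; simp [vor]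
  rw [h]
  refine hQ.inter (Finset.measurableSet_biInter T fun b' _ => ?_)
  exact (isClosed_le (by fun_prop) (by fun_prop)).measurableSet

lemma vor_cover (T : Finset (EuclideanSpace ℝ (Fin d))) (hT : T.Nonempty) (Q : Set (EuclideanSpace ℝ (Fin d))) : Q ⊆ ⋃ b ∈ T, vor T Q b := by
  intro q hq
  obtain ⟨b, hb, hmin⟩ := T.exists_min_image (fun b => ‖q - b‖) hT
  simp only [mem_iUnion]
  exact ⟨b, hb, hq, hmin⟩

/-- the images of different Voronoi parts are disjoint -/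
lemma con_disjoint (T : Finset (EuclideanSpace ℝ (Fin d))) (Q : Set (EuclideanSpace ℝ (Fin d))) {θ : ℝ} (h0 : 0 < θ) (h1 : θ < 1) {b b' : (EuclideanSpace ℝ (Fin d))}
    (hb : b ∈ T) (hb' : b' ∈ T) (hne : b ≠ b') :
    Disjoint (con b (1 - θ) '' vor T Q b) (con b' (1 - θ) '' vor T Q b') := by
  have key : ∀ c c' : (EuclideanSpace ℝ (Fin d)), c ∈ T → c' ∈ T → c ≠ c' → ∀ q ∈ vor T Q c,
      ‖con c (1 - θ) q - c‖ ^ 2 < ‖con c (1 - θ) q - c'‖ ^ 2 := by
    intro c c' hc hc' hcc q hq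
    have e1 := comb_sq c c q (1 - θ)
    have e2 := comb_sq c c' q (1 - θ)
    have e3 : ‖q - c‖ ^ 2 ≤ ‖q - c'‖ ^ 2 := pow_le_pow_left₀ (norm_nonneg _) (hq.2 c' hc') 2
    have e4 : 0 < ‖c' - c‖ ^ 2 := by
      have : 0 < ‖c' - c‖ := norm_pos_iff.mpr (sub_ne_zero.mpr (Ne.symm hcc))
      positivity
    unfold con
    rw [e1, e2, sub_self, norm_zero]
    have e5 : (1 - θ) * ‖q - c‖ ^ 2 ≤ (1 - θ) * ‖q - c'‖ ^ 2 :=
      mul_le_mul_of_nonneg_left e3 (by linarith)
    have e6 : 0 < (1 - (1 - θ)) * ‖c' - c‖ ^ 2 := mul_pos (by linarith) e4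
    have e7 : (1 - (1 - θ)) * (0 : ℝ) ^ 2 = 0 := by ring
    linarith
  rw [Set.disjoint_left]
  rintro p ⟨q, hq, rfl⟩ ⟨q', hq', h⟩
  have k1 := key b b' hb hb' hne q hq
  have k2 := key b' b hb' hb (Ne.symm hne) q' hq'
  rw [h] at k2
  linarith

theorem voronoi_contract (T : Finset (EuclideanSpace ℝ (Fin d))) (hT : T.Nonempty) {θ : ℝ} (h0 : 0 < θ) (h1 : θ < 1)
    {Q : Set (EuclideanSpace ℝ (Fin d))} (hQ : MeasurableSet Q) {W : Set (EuclideanSpace ℝ (Fin d))}
    (hW : ∀ b ∈ T, ∀ q ∈ vor T Q b, con b (1 - θ) q ∈ W) :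
    ENNReal.ofReal ((1 - θ) ^ d) * volume Q ≤ volume W := by
  classical
  have e1 : volume Q ≤ ∑ b ∈ T, volume (vor T Q b) :=
    (measure_mono (vor_cover T hT Q)).trans (measure_biUnion_finset_le T _)
  have e2 : volume (⋃ b ∈ T, con b (1 - θ) '' vor T Q b)
      = ∑ b ∈ T, volume (con b (1 - θ) '' vor T Q b) := by
    refine measure_biUnion_finset ?_ ?_
    · intro b hb b' hb' hne
      exact con_disjoint T Q h0 h1 hb hb' hne
    · intro b _
      exact con_meas b (by linarith) (vor_meas T hQ b)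
  have e3 : (⋃ b ∈ T, con b (1 - θ) '' vor T Q b) ⊆ W := by
    intro p hp
    simp only [mem_iUnion] at hp
    obtain ⟨b, hb, q, hq, rfl⟩ := hp
    exact hW b hb q hq
  calc ENNReal.ofReal ((1 - θ) ^ d) * volume Q
      ≤ ENNReal.ofReal ((1 - θ) ^ d) * ∑ b ∈ T, volume (vor T Q b) := by gcongr
    _ = ∑ b ∈ T, volume (con b (1 - θ) '' vor T Q b) := by
        rw [Finset.mul_sum]
        refine Finset.sum_congr rfl fun b _ => ?_
        rw [con_volume b (by linarith)]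
    _ = volume (⋃ b ∈ T, con b (1 - θ) '' vor T Q b) := e2.symm
    _ ≤ volume W := measure_mono e3

/-- the region just outside the ball around `a` which is covered by balls with centres at
distance at most `2 - η` is controlled by the part of the ball around `a` they cover -/
theorem mid_bound (a : (EuclideanSpace ℝ (Fin d))) (T : Finset (EuclideanSpace ℝ (Fin d))) {η γ X κ θ : ℝ} (hη0 : 0 < η) (hη : η ≤ 2 / 5)
    (hγ0 : 0 < γ) (hγ : γ ≤ η ^ 2 / 4) (hX : X = γ / η)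
    (hκ : κ = X * ((2 - η) ^ 2 - 2 + X)) (hθ : θ = κ / 2)
    (hT : ∀ b ∈ T, ‖b - a‖ ≤ 2 - η) {Z : Set (EuclideanSpace ℝ (Fin d))} (hZ : MeasurableSet Z)
    (hZ1 : ∀ z ∈ Z, 1 ≤ ‖z - a‖ ∧ ‖z - a‖ ≤ 1 + γ ∧ ∃ b ∈ T, ‖z - b‖ ≤ 1) :
    ENNReal.ofReal (((1 - θ) * (1 - X)) ^ d) * volume Z
      ≤ volume (closedBall a 1 ∩ ⋃ b ∈ T, closedBall b 1) := by
  have hXpos : 0 < X := by rw [hX]; positivity
  have hXle : X ≤ η / 4 := by
    rw [hX, div_le_iff₀ hη0]
    have : η / 4 * η = η ^ 2 / 4 := by ring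
    rw [this]; exact hγ
  have hX1 : X ≤ 1 / 10 := by linarith
  have hη2 : 0 ≤ η ^ 2 := sq_nonneg η
  have hκ0 : 0 < κ := by
    rw [hκ]
    refine mul_pos hXpos ?_
    have : (2 - η) ^ 2 - 2 + X = 2 - 4 * η + η ^ 2 + X := by ring
    rw [this]
    linarith
  have hκ1 : κ ≤ X * (2 + X) := by
    rw [hκ]
    refine mul_le_mul_of_nonneg_left ?_ hXpos.le
    have h1 : (2 - η) ^ 2 - 2 + X = 2 + X - η * (4 - η) := by ring
    have h2 : 0 ≤ η * (4 - η) := mul_nonneg hη0.le (by linarith)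
    rw [h1]; linarith
  have hκ2 : κ ≤ 1 / 4 := by
    refine hκ1.trans ?_
    calc X * (2 + X) ≤ (1 / 10) * (2 + 1 / 10) :=
          mul_le_mul hX1 (by linarith) (by linarith) (by norm_num)
      _ ≤ 1 / 4 := by norm_num
  have hθ0 : 0 < θ := by rw [hθ]; linarith
  have hθ1 : θ < 1 := by rw [hθ]; linarith
  rcases Z.eq_empty_or_nonempty with hem | ⟨z0, hz0⟩
  · rw [hem]; simp
  have hTne : T.Nonempty := by
    obtain ⟨_, _, b, hb, _⟩ := hZ1 z0 hz0
    exact ⟨b, hb⟩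
  set Q := con a (1 - X) '' Z with hQ
  have hQm : MeasurableSet Q := con_meas a (by linarith) hZ
  have hQv : volume Q = ENNReal.ofReal ((1 - X) ^ d) * volume Z := con_volume a (by linarith) Z
  have hmain := voronoi_contract T hTne hθ0 hθ1 hQm
    (W := closedBall a 1 ∩ ⋃ b ∈ T, closedBall b 1) (by
    rintro b' hb' q ⟨⟨z, hz, rfl⟩, hnear⟩
    obtain ⟨h1, h2, b, hb, h3⟩ := hZ1 z hz
    have h4 := two_steps a b b' z hη0 hη hγ0 hγ hX rfl hκ hθ h1 h2 h3 (hT b hb) (hT b' hb')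
      (hnear b hb)
    refine ⟨?_, ?_⟩
    · rw [mem_closedBall, dist_eq_norm]
      exact h4.2
    · simp only [mem_iUnion]
      refine ⟨b', hb', ?_⟩
      rw [mem_closedBall, dist_eq_norm]
      exact h4.1)
  rw [hQv, ← mul_assoc, ← ENNReal.ofReal_mul (pow_nonneg (by linarith) _), ← mul_pow] at hmain
  exact hmain

end SC87
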