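import Pool.Agent.SC87.Local

/-!
# Finite coverings by unit balls: the choice of the parameters
-/

set_option autoImplicit false

open MeasureTheory Metric Set Module

namespace SC87

variable {d : ℕ}


/-- every convex measurable set covered by `k ≥ 2` unit balls has volume at most
`(1 - ε) k κ_d` -/
def Gap (d : ℕ) (ε : ℝ) : Prop :=
  ∀ (k : ℕ), 2 ≤ k → ∀ (b : Fin k → EuclideanSpace ℝ (Fin d)) (C : Set (EuclideanSpace ℝ (Fin d))),
    Convex ℝ C → MeasurableSet C → (∀ x ∈ C, ∃ i, ‖x - b i‖ ≤ 1) →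
    (volume : Measure (EuclideanSpace ℝ (Fin d))).real C ≤ (1 - ε) * k * kap d

lemma Gap.mono {ε ε' : ℝ} (h : Gap d ε) (hε : ε' ≤ ε) : Gap d ε' := by
  intro k hk b C hC hCm hcov
  refine (h k hk b C hC hCm hcov).trans ?_
  have h1 : 0 ≤ (k : ℝ) * kap d := mul_nonneg (Nat.cast_nonneg k) kap_pos.le
  nlinarith

theorem gap_of_params {η γ X κ θ A ε t ψ τ r : ℝ} (hη0 : 0 < η) (hη : η ≤ 2 / 5) (hγ0 : 0 < γ)
    (hγ : γ ≤ η ^ 2 / 4) (hX : X = γ / η) (hκ : κ = X * ((2 - η) ^ 2 - 2 + X)) (hθ : θ = κ / 2)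
    (hA0 : 0 ≤ A) (hA : 1 ≤ A * ((1 - θ) * (1 - X)) ^ d) (hε0 : 0 < ε) (hε : 4 * ε < 1)
    (ht : 0 < t) (hψ0 : 0 ≤ ψ)
    (hψ : ∀ a v : (EuclideanSpace ℝ (Fin d)), ‖v‖ = t →
      (volume : Measure (EuclideanSpace ℝ (Fin d))).real (closedBall a 1 ∩ closedBall (a + v) 1) ≤ ψ * kap d)
    (hτ : ∀ a v : (EuclideanSpace ℝ (Fin d)), ‖v‖ ≤ t →
      (volume : Measure (EuclideanSpace ℝ (Fin d))).real ({z | 1 + γ < ‖z - a‖} ∩ closedBall (a + v) 1) ≤ τ * kap d)
    (hr0 : 0 ≤ r) (hr : γ + γ ^ 2 / 2 + η - η ^ 2 / 4 ≤ r ^ 2)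
    (hmain : A * (4 * ε) + 2 * (4 * ε) + 2 * (3 + γ) ^ d / (1 - 4 * ε) * r ^ d + ψ + τ < 1) :
    Gap d ε := by
  classical
  intro k hk b C hC hCm hcov
  by_contra hcon
  push Not at hcon
  have hκp : 0 < kap d := kap_pos
  have hfin : ∀ i, (volume : Measure (EuclideanSpace ℝ (Fin d))) (exc b C i) ≠ ⊤ := fun i =>
    ne_top_of_le_ne_top (ball_ne_top (b i) 1) (measure_mono (exc_sub_ball b C i))
  have h1 := exc_sum b hCm hcov
  have h2 : 2 * (volume : Measure (EuclideanSpace ℝ (Fin d))).real C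
      ≤ k * kap d + ∑ i, (volume : Measure (EuclideanSpace ℝ (Fin d))).real (exc b C i) := by
    have h3 : (∑ i, volume (closedBall (b i) 1) + ∑ i, (volume : Measure (EuclideanSpace ℝ (Fin d))) (exc b C i)) ≠ ⊤ := by
      refine ENNReal.add_ne_top.mpr ⟨?_, ?_⟩
      · exact ENNReal.sum_ne_top.mpr fun i _ => ball_ne_top (b i) 1
      · exact ENNReal.sum_ne_top.mpr fun i _ => hfin i
    have h4 := ENNReal.toReal_mono h3 h1
    rw [ENNReal.toReal_mul, ENNReal.toReal_add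
      (ENNReal.sum_ne_top.mpr fun i _ => ball_ne_top (b i) 1)
      (ENNReal.sum_ne_top.mpr fun i _ => hfin i),
      ENNReal.toReal_sum (fun i _ => ball_ne_top (b i) 1),
      ENNReal.toReal_sum (fun i _ => hfin i)] at h4
    have h5 : ∑ i, ((volume : Measure (EuclideanSpace ℝ (Fin d))) (closedBall (b i) 1)).toReal = k * kap d := by
      have : ∀ i ∈ (Finset.univ : Finset (Fin k)),
          ((volume : Measure (EuclideanSpace ℝ (Fin d))) (closedBall (b i) 1)).toReal = kap d := by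
        intro i _
        have := vol_ball (b i) zero_le_one
        rw [one_pow, one_mul] at this
        exact this
      rw [Finset.sum_congr rfl this, Finset.sum_const, Finset.card_univ, Fintype.card_fin,
        nsmul_eq_mul]
    rw [h5] at h4
    have h6 : (2 : ENNReal).toReal = 2 := by norm_num
    rw [h6] at h4
    exact h4
  have h3 : (1 - 2 * ε) * k * kap d < ∑ i, (volume : Measure (EuclideanSpace ℝ (Fin d))).real (exc b C i) := by
    have : (1 - 2 * ε) * k * kap d = 2 * ((1 - ε) * k * kap d) - k * kap d := by ring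
    rw [this]; linarith
  have h4 : ∀ i, (volume : Measure (EuclideanSpace ℝ (Fin d))).real (exc b C i) ≤ kap d := by
    intro i
    have := vol_ball (b i) zero_le_one
    rw [one_pow, one_mul] at this
    rw [← this]
    exact measureReal_mono (exc_sub_ball b C i) (ball_ne_top _ _)
  have h5 := card_good (fun i => (volume : Measure (EuclideanSpace ℝ (Fin d))).real (exc b C i)) hκp hε0 h4 h3
  set S := Finset.univ.filter fun i => (1 - 4 * ε) * kap d ≤ (volume : Measure (EuclideanSpace ℝ (Fin d))).real (exc b C i)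
    with hS
  have hSm : ∀ i ∈ S, (1 - 4 * ε) * kap d ≤ (volume : Measure (EuclideanSpace ℝ (Fin d))).real (exc b C i) :=
    fun i hi => (Finset.mem_filter.mp hi).2
  obtain ⟨i, hiS, hdeg⟩ := low_degree b (exc b C) (exc_meas b hCm) (exc_sub_ball b C)
    (fun i j h => exc_disj b C h) S h5 (q := 1 - 4 * ε) (R := 2 + γ) (by linarith) (by linarith) hSm
  have hcard : 1 < S.card := by
    have h6 : (2 : ℝ) ≤ k := by exact_mod_cast hk
    have h7 : (1 : ℝ) < S.card := by linarith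
    exact_mod_cast h7
  obtain ⟨j, hjS, hji⟩ := Finset.exists_mem_ne hcard i
  have h6 := local_ineq b hC hCm hcov (Ne.symm hji) hη0 hη hγ0 hγ hX hκ hθ hA0 hA hε
    (hSm i hiS) (hSm j hjS) ht hψ0 (hψ (b i)) (hτ (b i)) hr0 hr
  have h7 : ((Finset.univ.filter fun l => ‖b l - b i‖ ≤ 2 + γ).card : ℝ)
      ≤ 2 * (3 + γ) ^ d / (1 - 4 * ε) := by
    rw [le_div_iff₀ (by linarith)]
    have h8 : 2 + γ + 1 = 3 + γ := by ring
    rw [h8] at hdeg
    linarith
  have h8 : ((Finset.univ.filter fun l => ‖b l - b i‖ ≤ 2 + γ).card : ℝ) * r ^ d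
      ≤ 2 * (3 + γ) ^ d / (1 - 4 * ε) * r ^ d :=
    mul_le_mul_of_nonneg_right h7 (pow_nonneg hr0 d)
  linarith

/-! ### small dimensions -/

lemma shift_bound (a v : (EuclideanSpace ℝ (Fin d))) {n : ℕ} (hn : 2 < n * ‖v‖) (hn0 : 0 < n) :
    (volume : Measure (EuclideanSpace ℝ (Fin d))).real (closedBall a 1 ∩ closedBall (a + v) 1) ≤ (1 - 1 / n) * kap d := by
  classical
  have hvolB : ∀ c : (EuclideanSpace ℝ (Fin d)), (volume : Measure (EuclideanSpace ℝ (Fin d))).real (closedBall c 1) = kap d := by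
    intro c
    rw [vol_ball c zero_le_one, one_pow, one_mul]
  have hsub : closedBall a 1 ⊆ ⋃ m ∈ Finset.range n,
      (closedBall (a + (m : ℝ) • v) 1 \ closedBall (a + ((m : ℝ) + 1) • v) 1) := by
    intro x hx
    by_contra hcon
    simp only [mem_iUnion, Finset.mem_range, not_exists] at hcon
    have hall : ∀ m : ℕ, m ≤ n → x ∈ closedBall (a + (m : ℝ) • v) 1 := by
      intro m
      induction m with
      | zero => intro _; simpa using hx
      | succ m ih =>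
        intro hm
        have h1 := ih (Nat.le_of_succ_le hm)
        have h2 := hcon m hm
        by_contra h3
        exact h2 ⟨h1, by push_cast at h3; exact h3⟩
    have h1 := hall n le_rfl
    rw [mem_closedBall, dist_eq_norm] at h1 hx
    have h2 : (n : ℝ) • v = (x - a) - (x - (a + (n : ℝ) • v)) := by abel
    have h3 : ‖(n : ℝ) • v‖ ≤ 2 := by
      rw [h2]
      refine (norm_sub_le _ _).trans ?_
      linarith
    rw [norm_smul, Real.norm_natCast] at h3
    linarith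
  have hpiece : ∀ m : ℕ, (volume : Measure (EuclideanSpace ℝ (Fin d))).real
      (closedBall (a + (m : ℝ) • v) 1 \ closedBall (a + ((m : ℝ) + 1) • v) 1)
      = (volume : Measure (EuclideanSpace ℝ (Fin d))).real (closedBall a 1 \ closedBall (a + v) 1) := by
    intro m
    have h1 := real_pre ((m : ℝ) • v)
      (closedBall (a + (m : ℝ) • v) 1 \ closedBall (a + ((m : ℝ) + 1) • v) 1)
    rw [← h1]
    congr 1
    ext x
    simp only [mem_preimage, mem_diff, mem_closedBall, dist_eq_norm]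
    have e1 : x + (m : ℝ) • v - (a + (m : ℝ) • v) = x - a := by abel
    have e2 : x + (m : ℝ) • v - (a + ((m : ℝ) + 1) • v) = x - (a + v) := by
      rw [add_smul, one_smul]; abel
    rw [e1, e2]
  have hfin : ∀ m : ℕ, (volume : Measure (EuclideanSpace ℝ (Fin d)))
      (closedBall (a + (m : ℝ) • v) 1 \ closedBall (a + ((m : ℝ) + 1) • v) 1) ≠ ⊤ := fun m =>
    ne_top_of_le_ne_top (ball_ne_top _ 1) (measure_mono diff_subset)
  have hsum : kap d ≤ n * (volume : Measure (EuclideanSpace ℝ (Fin d))).real (closedBall a 1 \ closedBall (a + v) 1) := by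
    calc kap d = (volume : Measure (EuclideanSpace ℝ (Fin d))).real (closedBall a 1) := (hvolB a).symm
      _ ≤ (volume : Measure (EuclideanSpace ℝ (Fin d))).real (⋃ m ∈ Finset.range n,
          (closedBall (a + (m : ℝ) • v) 1 \ closedBall (a + ((m : ℝ) + 1) • v) 1)) := by
          refine measureReal_mono hsub ?_
          exact (measure_biUnion_lt_top (Finset.range n).finite_toSet
            fun m _ => lt_top_iff_ne_top.mpr (hfin m)).ne
      _ ≤ ∑ m ∈ Finset.range n, (volume : Measure (EuclideanSpace ℝ (Fin d))).real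
          (closedBall (a + (m : ℝ) • v) 1 \ closedBall (a + ((m : ℝ) + 1) • v) 1) :=
          measureReal_biUnion_finset_le _ _
      _ = n * (volume : Measure (EuclideanSpace ℝ (Fin d))).real (closedBall a 1 \ closedBall (a + v) 1) := by
          rw [Finset.sum_congr rfl fun m _ => hpiece m, Finset.sum_const, Finset.card_range,
            nsmul_eq_mul]
  have hsplit := measureReal_inter_add_diff (μ := (volume : Measure (EuclideanSpace ℝ (Fin d)))) (s := closedBall a 1)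
      (t := closedBall (a + v) 1) measurableSet_closedBall (ball_ne_top a 1)
  rw [hvolB] at hsplit
  have hn1 : (0 : ℝ) < n := by exact_mod_cast hn0
  have h1 : 1 / (n : ℝ) * kap d ≤ (volume : Measure (EuclideanSpace ℝ (Fin d))).real (closedBall a 1 \ closedBall (a + v) 1) := by
    rw [div_mul_eq_mul_div, one_mul, div_le_iff₀ hn1]
    linarith
  have h2 : (1 - 1 / (n : ℝ)) * kap d = kap d - 1 / (n : ℝ) * kap d := by ring
  rw [h2]; linarith

/-- the bounds for `X`, `θ` -/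
lemma theta_bounds {η γ X κ θ : ℝ} (hη0 : 0 < η) (hη : η ≤ 2 / 5) (hγ0 : 0 < γ)
    (hγ : γ ≤ η ^ 2 / 4) (hX : X = γ / η) (hκ : κ = X * ((2 - η) ^ 2 - 2 + X)) (hθ : θ = κ / 2) :
    0 < X ∧ X ≤ 1 / 10 ∧ 0 ≤ θ ∧ θ ≤ 2 * X := by
  have hXpos : 0 < X := by rw [hX]; positivity
  have hXle : X ≤ η / 4 := by
    rw [hX, div_le_iff₀ hη0]
    have : η / 4 * η = η ^ 2 / 4 := by ring
    rw [this]; exact hγ
  have hX1 : X ≤ 1 / 10 := by linarith
  have hη2 : 0 ≤ η ^ 2 := sq_nonneg η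
  have hκ0 : 0 ≤ κ := by
    rw [hκ]
    refine mul_nonneg hXpos.le ?_
    have : (2 - η) ^ 2 - 2 + X = 2 - 4 * η + η ^ 2 + X := by ring
    rw [this]
    linarith
  have hκ1 : κ ≤ X * 4 := by
    rw [hκ]
    refine mul_le_mul_of_nonneg_left ?_ hXpos.le
    have h1 : (2 - η) ^ 2 - 2 + X = 2 + X - η * (4 - η) := by ring
    have h2 : 0 ≤ η * (4 - η) := mul_nonneg hη0.le (by linarith)
    rw [h1]; linarith
  exact ⟨hXpos, hX1, by rw [hθ]; linarith, by rw [hθ]; linarith⟩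

theorem gap_small (hd : 5 ≤ d) : ∃ ε : ℝ, 0 < ε ∧ Gap d ε := by
  obtain ⟨s, hs⟩ : ∃ s : ℝ, s = 1 / 2 ^ 21 := ⟨_, rfl⟩
  obtain ⟨η, hη⟩ : ∃ η : ℝ, η = 2 * s ^ 2 := ⟨_, rfl⟩
  obtain ⟨γ, hγ⟩ : ∃ γ : ℝ, γ = s ^ 4 := ⟨_, rfl⟩
  obtain ⟨X, hX⟩ : ∃ X : ℝ, X = γ / η := ⟨_, rfl⟩
  obtain ⟨κ, hκ⟩ : ∃ κ : ℝ, κ = X * ((2 - η) ^ 2 - 2 + X) := ⟨_, rfl⟩
  obtain ⟨θ, hθ⟩ : ∃ θ : ℝ, θ = κ / 2 := ⟨_, rfl⟩
  have hs0 : 0 < s := by rw [hs]; positivity
  have hη0 : 0 < η := by rw [hη]; positivity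
  have hγ0 : 0 < γ := by rw [hγ]; positivity
  have hη1 : η ≤ 2 / 5 := by rw [hη, hs]; norm_num
  have hγη : γ ≤ η ^ 2 / 4 := by
    have : η ^ 2 / 4 = γ := by rw [hη, hγ]; ring
    rw [this]
  obtain ⟨hX0, hX1, hθ0, hθ1⟩ := theta_bounds hη0 hη1 hγ0 hγη hX hκ hθ
  have hbase : 0 < ((1 - θ) * (1 - X)) ^ d := by
    refine pow_pos (mul_pos (by linarith) (by linarith)) d
  obtain ⟨A, hA⟩ : ∃ A : ℝ, A = (((1 - θ) * (1 - X)) ^ d)⁻¹ := ⟨_, rfl⟩
  have hA0 : 0 < A := by rw [hA]; positivity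
  have hA1 : 1 ≤ A * ((1 - θ) * (1 - X)) ^ d := by
    rw [hA, inv_mul_cancel₀ hbase.ne']
  obtain ⟨ε, hε⟩ : ∃ ε : ℝ, ε = γ / (64 * (A + 2)) := ⟨_, rfl⟩
  have hε0 : 0 < ε := by rw [hε]; positivity
  have hγ1 : γ ≤ 1 := by rw [hγ, hs]; norm_num
  have hεγ : 64 * (A + 2) * ε = γ := by
    rw [hε]; field_simp
  have hε1 : ε ≤ 1 / 128 := by
    have h1 : 0 ≤ A * ε := by positivity
    linarith
  obtain ⟨n, hn⟩ : ∃ n : ℕ, n = ⌈3 / γ⌉₊ := ⟨_, rfl⟩
  have hn1 : 3 / γ ≤ n := by rw [hn]; exact Nat.le_ceil _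
  have hn2 : (n : ℝ) < 3 / γ + 1 := by rw [hn]; exact Nat.ceil_lt_add_one (by positivity)
  have hn3 : 3 ≤ n * γ := by
    rw [div_le_iff₀ hγ0] at hn1
    exact hn1
  have hnpos : 0 < n := by
    have : (0 : ℝ) < n := lt_of_lt_of_le (by positivity) hn1
    exact_mod_cast this
  have hnr : (0 : ℝ) < n := by exact_mod_cast hnpos
  have hn4 : n * γ ≤ 4 := by
    have h1 : n * γ < (3 / γ + 1) * γ := mul_lt_mul_of_pos_right hn2 hγ0
    have h2 : (3 / γ + 1) * γ = 3 + γ := by field_simp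
    rw [h2] at h1
    linarith
  have hn5 : γ / 4 ≤ 1 / n := by
    rw [div_le_div_iff₀ (by norm_num) hnr]
    linarith
  have hn6 : 1 / (n : ℝ) ≤ 1 := by
    rw [div_le_one hnr]
    exact_mod_cast hnpos
  refine ⟨ε, hε0, gap_of_params hη0 hη1 hγ0 hγη hX hκ hθ hA0.le hA1 hε0 (by linarith)
    (t := γ) (ψ := 1 - 1 / n) (τ := 0) (r := 2 * s) hγ0 (by linarith) ?_ ?_ (by positivity) ?_ ?_⟩
  · intro a v hv
    refine shift_bound a v ?_ hnpos
    rw [hv]; linarith
  · intro a v hv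
    have hem : ({z : EuclideanSpace ℝ (Fin d) | 1 + γ < ‖z - a‖} ∩ closedBall (a + v) 1) = ∅ := by
      rw [Set.eq_empty_iff_forall_notMem]
      rintro z ⟨h1, h2⟩
      rw [mem_closedBall, dist_eq_norm] at h2
      have h3 : z - a = (z - (a + v)) + v := by abel
      have h4 : ‖z - a‖ ≤ 1 + γ := by
        rw [h3]
        refine (norm_add_le _ _).trans ?_
        linarith
      exact absurd h1 (not_lt.mpr h4)
    rw [hem, measureReal_empty, zero_mul]
  · have h1 : γ + γ ^ 2 / 2 + η - η ^ 2 / 4 = 2 * s ^ 2 + s ^ 8 / 2 := by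
      rw [hγ, hη]; ring
    have h2 : (2 * s) ^ 2 = 2 * s ^ 2 + 2 * s ^ 2 := by ring
    rw [h1, h2]
    have h3 : s ^ 8 / 2 ≤ 2 * s ^ 2 := by rw [hs]; norm_num
    linarith
  · -- the main inequality
    have h1 : (3 + γ) ^ d * (2 * s) ^ d ≤ (8 * s) ^ 5 := by
      rw [← mul_pow]
      have h2 : (3 + γ) * (2 * s) ≤ 8 * s := by nlinarith
      have h3 : 8 * s ≤ 1 := by rw [hs]; norm_num
      calc ((3 + γ) * (2 * s)) ^ d ≤ (8 * s) ^ d := pow_le_pow_left₀ (by positivity) h2 d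
        _ ≤ (8 * s) ^ 5 := pow_le_pow_of_le_one (by positivity) h3 hd
    have h2 : (8 * s) ^ 5 * 4 = γ / 16 := by
      rw [hγ, hs]; norm_num
    have h3 : 2 * (3 + γ) ^ d / (1 - 4 * ε) * (2 * s) ^ d ≤ γ / 16 := by
      have h4 : 0 < 1 - 4 * ε := by linarith
      rw [div_mul_eq_mul_div, div_le_iff₀ h4]
      have h5 : 2 * (3 + γ) ^ d * (2 * s) ^ d ≤ γ / 32 := by
        have : 2 * (3 + γ) ^ d * (2 * s) ^ d = 2 * ((3 + γ) ^ d * (2 * s) ^ d) := by ring
        rw [this]; linarith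
      have h6 : γ / 16 * (1 / 2) ≤ γ / 16 * (1 - 4 * ε) :=
        mul_le_mul_of_nonneg_left (by linarith) (by positivity)
      linarith
    have h4 : A * (4 * ε) + 2 * (4 * ε) = γ / 16 := by
      rw [← hεγ]; ring
    rw [h4]
    linarith

end SC87
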